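import Pool.Agent.UQ.Gen

/-!
# Arcs through the generic point of a variety of codimension two
-/

set_option autoImplicit false

namespace Pool.Agent.ADT

open Polynomial Pool.Agent.UQ

universe u v

section Index

variable {k : Type u} {L : Type v} [Field k] [Field L] [Algebra k L]

lemma exists_index' {ι : Type} [Fintype ι] [DecidableEq ι] (ξ : ι → L)
    (halg : Algebra.IsAlgebraic (Algebra.adjoin k (Set.range ξ)) L)
    (htr : (Fintype.card ι : Cardinal) ≤ Algebra.trdeg k L + 1) (F : MvPolynomial ι k) (hF : F ≠ 0)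
    (h0 : MvPolynomial.aeval ξ F = 0) :
    ∃ i₀ : ι, AlgebraicIndependent k (fun i : {i : ι // i ≠ i₀} => ξ i) := by
  classical
  obtain ⟨t, ht, hb⟩ := exists_isTranscendenceBasis_subset (R := k) (Set.range ξ)
  have hcard := hb.cardinalMk_eq_trdeg
  choose f hf using fun b : t => ht b.2
  have hfinj : Function.Injective f := by
    intro b c h
    apply Subtype.ext
    rw [← hf b, ← hf c, h]
  have hcomp : ∀ {κ : Type} (g : κ → t), Function.Injective g →
      AlgebraicIndependent k (fun i => ((g i : t) : L)) := fun g hg => hb.1.comp g hg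
  have hfin : Finite t := Finite.of_injective f hfinj
  have : Fintype t := Fintype.ofFinite t
  have hcard2 : Fintype.card ι ≤ Fintype.card t + 1 := by
    rw [← hcard, Cardinal.mk_fintype] at htr
    exact_mod_cast htr
  have hnsurj : ¬ Function.Surjective f := by
    intro hs
    choose g hg using hs
    have hginj : Function.Injective g := by
      intro i j h
      rw [← hg i, ← hg j, h]
    have h1 := hcomp g hginj
    have h2 : (fun i => ((g i : t) : L)) = ξ := by
      ext i
      rw [← hf (g i), hg i]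
    rw [h2] at h1
    exact hF ((injective_iff_map_eq_zero _).1 h1 F h0)
  have hex : ∃ i₀, ∀ b, f b ≠ i₀ := by
    by_contra hcon
    push Not at hcon
    exact hnsurj hcon
  obtain ⟨i₀, hi₀⟩ := hex
  refine ⟨i₀, ?_⟩
  let f' : t → {i // i ≠ i₀} := fun b => ⟨f b, hi₀ b⟩
  have hf'inj : Function.Injective f' := by
    intro b c h
    exact hfinj (congrArg Subtype.val h)
  have hsurj : Function.Surjective f' := by
    have hc : Fintype.card {i // i ≠ i₀} ≤ Fintype.card t := by
      rw [Fintype.card_subtype_compl, Fintype.card_subtype_eq]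
      omega
    exact ((Fintype.bijective_iff_injective_and_card f').2
      ⟨hf'inj, le_antisymm (Fintype.card_le_of_injective f' hf'inj) hc⟩).2
  choose g hg using hsurj
  have hginj : Function.Injective g := by
    intro i j h
    rw [← hg i, ← hg j, h]
  have h1 := hcomp g hginj
  have h2 : (fun i => ((g i : t) : L)) = fun i : {i // i ≠ i₀} => ξ i := by
    ext i
    rw [← hf (g i)]
    have h3 : f (g i) = (f' (g i)).1 := rfl
    rw [h3, hg i]
  rwa [h2] at h1

end Index

section Spec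

variable {k : Type u} {K : Type v} {A : Type*} [Field k] [Field K] [Algebra k K] [CommRing A]
  [IsDomain A] [Algebra k A]

/-- the relations of a specialization lift, if a transcendence basis specializes to algebraically
independent elements -/
theorem spec' {ι κ : Type} (π : A →ₐ[k] K) (𝒳 : ι → A) (g : κ → ι)
    (hi : AlgebraicIndependent k (fun i => π (𝒳 (g i))))
    (halg : ∀ i, IsAlgebraic (Algebra.adjoin k (Set.range fun i => 𝒳 (g i))) (𝒳 i))
    (G : MvPolynomial ι k) (hG : MvPolynomial.aeval (fun i => π (𝒳 i)) G = 0) :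
    MvPolynomial.aeval 𝒳 G = 0 := by
  classical
  by_contra hne
  let 𝒳' : κ → A := fun i => 𝒳 (g i)
  let B := Algebra.adjoin k (Set.range 𝒳')
  have h2 : ∀ P : MvPolynomial ι k, IsAlgebraic B (MvPolynomial.aeval 𝒳 P) := by
    intro P
    induction P using MvPolynomial.induction_on with
    | C a =>
      rw [MvPolynomial.aeval_C]
      have h5 : algebraMap k A a = algebraMap B A (algebraMap k B a) := rfl
      rw [h5]
      exact isAlgebraic_algebraMap _
    | add p q hp hq =>
      rw [map_add]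
      exact hp.add hq
    | mul_X p i hp =>
      rw [map_mul, MvPolynomial.aeval_X]
      exact hp.mul (halg i)
  obtain ⟨q, hq0, hq⟩ := (h2 G).exists_nonzero_coeff_and_aeval_eq_zero
    (mem_nonZeroDivisors_of_ne_zero hne)
  have hπG : π (MvPolynomial.aeval 𝒳 G) = 0 := by
    rw [← hG, ← AlgHom.comp_apply, MvPolynomial.comp_aeval]
  have h3 : π ((q.coeff 0 : B) : A) = 0 := by
    have h4 := congrArg π hq
    rw [map_zero, Polynomial.aeval_eq_sum_range, map_sum, Finset.sum_range_succ'] at h4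
    rw [Finset.sum_eq_zero, zero_add, pow_zero] at h4
    · rw [Algebra.smul_def, mul_one] at h4
      exact h4
    · intro i _
      rw [Algebra.smul_def, map_mul, map_pow, hπG, pow_succ, mul_zero, mul_zero]
  obtain ⟨c, hc⟩ : ∃ c, MvPolynomial.aeval 𝒳' c = ((q.coeff 0 : B) : A) := by
    have h5 := (q.coeff 0).2
    have h6 := Algebra.adjoin_range_eq_range_aeval k 𝒳'
    have h7 : ((q.coeff 0 : B) : A) ∈ (MvPolynomial.aeval 𝒳' : _ →ₐ[k] A).range := h6 ▸ h5
    exact h7
  have h8 : MvPolynomial.aeval (fun i : κ => π (𝒳 (g i))) c = 0 := by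
    have h9 : MvPolynomial.aeval (fun i : κ => π (𝒳 (g i))) c =
        π (MvPolynomial.aeval 𝒳' c) := by
      rw [← AlgHom.comp_apply, MvPolynomial.comp_aeval]
    rw [h9, hc, h3]
  have h10 := (injective_iff_map_eq_zero _).1 hi c h8
  rw [h10, map_zero] at hc
  exact hq0 (Subtype.ext hc.symm)

/-- one relation -/
theorem alg_of_rel {ι : Type} [DecidableEq ι] (𝒳 : ι → A) (F : MvPolynomial ι k) (hF : F ≠ 0)
    (h0 : MvPolynomial.aeval 𝒳 F = 0) (i₀ : ι)
    (hind : AlgebraicIndependent k (fun i : {i // i ≠ i₀} => 𝒳 i)) :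
    IsAlgebraic (Algebra.adjoin k (Set.range fun i : {i // i ≠ i₀} => 𝒳 i)) (𝒳 i₀) := by
  by_contra htr
  have h2 := (hind.option_iff_transcendental (𝒳 i₀)).2 htr
  have h3 := h2.comp (Equiv.optionSubtypeNe i₀).symm (Equiv.injective _)
  have h4 : (fun o : Option {i : ι // i ≠ i₀} => o.elim (𝒳 i₀) (fun i => 𝒳 i)) ∘
      (Equiv.optionSubtypeNe i₀).symm = 𝒳 := by
    ext i
    by_cases hii : i = i₀
    · subst hii
      simp
    · simp [Equiv.optionSubtypeNe_symm_of_ne hii]
  rw [h4] at h3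
  exact hF ((injective_iff_map_eq_zero _).1 h3 F h0)

theorem alg_trans {B B' : Subalgebra k A} (h : B ≤ B')
    (hB : ∀ b ∈ B', IsAlgebraic B b) {a : A} (ha : IsAlgebraic B' a) : IsAlgebraic B a := by
  let _ : Algebra B B' := (Subalgebra.inclusion h).toRingHom.toAlgebra
  have tow : IsScalarTower B B' A := IsScalarTower.of_algebraMap_eq fun _ => rfl
  have h1 : Algebra.IsAlgebraic B B' := by
    constructor
    rintro ⟨b, hb⟩
    have h2 := hB b hb
    exact (isAlgebraic_algebraMap_iff (R := B) (S := B') (A := A) Subtype.val_injective).1 h2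
  exact ha.restrictScalars B

end Spec

section Ker

variable {k : Type u} {L : Type v} {K : Type*} {A : Type*} [Field k] [Field L] [Algebra k L]
  [Field K] [Algebra k K] [CommRing A] [IsDomain A] [Algebra k A] {m : ℕ}

/-- The relations of the generic point of a variety of codimension two lift. -/
theorem ker2 (ξ : Fin m → L) (hgen : IntermediateField.adjoin k (Set.range ξ) = ⊤)
    (htr : (m : Cardinal) ≤ Algebra.trdeg k L + 2) (i₀ : Fin m) (P : MvPolynomial (Fin m) k)
    (hP0 : P ≠ 0) (hPv : i₀ ∉ P.vars) (hP : MvPolynomial.aeval ξ P = 0)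
    (hξ : IsAlgebraic (Algebra.adjoin k (Set.range fun i : {i // i ≠ i₀} => ξ i)) (ξ i₀))
    (j : L →ₐ[k] K) (π : A →ₐ[k] K) (𝒳 : Fin m → A) (hπ : ∀ i, π (𝒳 i) = j (ξ i))
    (hX : MvPolynomial.aeval 𝒳 P = 0)
    (hXa : IsAlgebraic (Algebra.adjoin k (Set.range fun i : {i // i ≠ i₀} => 𝒳 i)) (𝒳 i₀))
    (G : MvPolynomial (Fin m) k) (hG : MvPolynomial.aeval ξ G = 0) :
    MvPolynomial.aeval 𝒳 G = 0 := by
  classical
  obtain ⟨P', rfl⟩ := MvPolynomial.exists_rename_eq_of_vars_subset_range P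
    (Subtype.val : {i : Fin m // i ≠ i₀} → Fin m) Subtype.val_injective (by
      intro i hi
      exact ⟨⟨i, fun h => hPv (h ▸ hi)⟩, rfl⟩)
  rw [MvPolynomial.aeval_rename] at hP hX
  have hP'0 : P' ≠ 0 := by
    rintro rfl
    exact hP0 (map_zero _)
  let ξ' : {i : Fin m // i ≠ i₀} → L := fun i => ξ i
  let 𝒳' : {i : Fin m // i ≠ i₀} → A := fun i => 𝒳 i
  -- `L` is algebraic over `k(ξ')`
  have halg : Algebra.IsAlgebraic (Algebra.adjoin k (Set.range ξ')) L := by
    constructor
    intro a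
    have ha : a ∈ IntermediateField.adjoin k (Set.range ξ) := by
      rw [hgen]
      exact IntermediateField.mem_top
    have key : ∀ r ∈ Algebra.adjoin k (Set.range ξ),
        IsAlgebraic (Algebra.adjoin k (Set.range ξ')) r := by
      intro r hr
      induction hr using Algebra.adjoin_induction with
      | mem x hx =>
        obtain ⟨i, rfl⟩ := hx
        by_cases hii : i = i₀
        · subst hii
          exact hξ
        · exact isAlgebraic_algebraMap (⟨ξ i, Algebra.subset_adjoin ⟨⟨i, hii⟩, rfl⟩⟩ :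
            Algebra.adjoin k (Set.range ξ'))
      | algebraMap r => exact isAlgebraic_algebraMap (algebraMap k (Algebra.adjoin k (Set.range ξ')) r)
      | add x y _ _ hx hy => exact hx.add hy
      | mul x y _ _ hx hy => exact hx.mul hy
    obtain ⟨r, hr, s, hs, rfl⟩ := IntermediateField.mem_adjoin_iff_div.1 ha
    rw [div_eq_mul_inv]
    exact (key r hr).mul (key s hs).inv
  have hcard : (Fintype.card {i : Fin m // i ≠ i₀} : Cardinal) ≤ Algebra.trdeg k L + 1 := by
    rw [Fintype.card_subtype_compl, Fintype.card_fin, Fintype.card_subtype_eq]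
    obtain ⟨n, rfl⟩ : ∃ n, m = n + 1 := ⟨m - 1, by have := i₀.2; omega⟩
    rw [Nat.add_sub_cancel]
    have h1 : ((n : Cardinal) + 1 : Cardinal) ≤ (Algebra.trdeg k L + 1) + 1 := by
      have h2 : (1 : Cardinal) + 1 = 2 := by norm_num
      rw [add_assoc, h2, ← Nat.cast_succ]
      exact htr
    exact (Cardinal.add_one_le_add_one_iff).1 h1
  obtain ⟨i₁, hi₁⟩ := exists_index' ξ' halg hcard P' hP'0 hP
  let g : {i : {i : Fin m // i ≠ i₀} // i ≠ i₁} → Fin m := fun i => i.1.1
  have hi : AlgebraicIndependent k (fun i => π (𝒳 (g i))) := by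
    have h := hi₁.map' (f := j) j.injective
    have h2 : (j ∘ fun i : {i : {i : Fin m // i ≠ i₀} // i ≠ i₁} => ξ' i) =
        fun i => π (𝒳 (g i)) := by
      ext i
      exact (hπ _).symm
    rwa [h2] at h
  have hind : AlgebraicIndependent k (fun i : {i : {i : Fin m // i ≠ i₀} // i ≠ i₁} => 𝒳' i) :=
    AlgebraicIndependent.of_comp π hi
  have h1 := alg_of_rel 𝒳' P' hP'0 hX i₁ hind
  have h2 : ∀ i : {i : Fin m // i ≠ i₀}, IsAlgebraic (Algebra.adjoin k (Set.range fun i :
      {i : {i : Fin m // i ≠ i₀} // i ≠ i₁} => 𝒳' i)) (𝒳' i) := by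
    intro i
    by_cases hii : i = i₁
    · subst hii
      exact h1
    · exact isAlgebraic_algebraMap (⟨𝒳' i, Algebra.subset_adjoin ⟨⟨i, hii⟩, rfl⟩⟩ :
        Algebra.adjoin k (Set.range fun i : {i : {i : Fin m // i ≠ i₀} // i ≠ i₁} => 𝒳' i))
  refine spec' π 𝒳 g hi (fun i => ?_) G ?_
  · by_cases hii : i = i₀
    · subst hii
      refine alg_trans (B' := Algebra.adjoin k (Set.range 𝒳')) (Algebra.adjoin_mono ?_) ?_ hXa
      · rintro _ ⟨a, rfl⟩
        exact ⟨a.1, rfl⟩
      · intro r hr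
        induction hr using Algebra.adjoin_induction with
        | mem x hx =>
          obtain ⟨a, rfl⟩ := hx
          exact h2 a
        | algebraMap r => exact isAlgebraic_algebraMap (algebraMap k (Algebra.adjoin k (Set.range
            fun i => 𝒳 (g i))) r)
        | add x y _ _ hx hy => exact hx.add hy
        | mul x y _ _ hx hy => exact hx.mul hy
    · exact h2 ⟨i, hii⟩
  · have h3 : (fun i => π (𝒳 i)) = fun i => j (ξ i) := funext hπ
    rw [h3, ← MvPolynomial.comp_aeval_apply, hG, map_zero]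

end Ker

section

variable {k : Type*} {L : Type*} {K : Type*} {A : Type*} {Q : Type*} [Field k] [Field L]
  [Algebra k L] [Field K] [Algebra k K] [CommRing A] [IsDomain A] [Algebra k A] [Field Q]
  [Algebra k Q] {m : ℕ}

theorem exists_embedding' (ξ : Fin m → L) (hgen : IntermediateField.adjoin k (Set.range ξ) = ⊤)
    (j : L →ₐ[k] K) (π : A →ₐ[k] K) (𝒳 : Fin m → A) (hπ : ∀ i, π (𝒳 i) = j (ξ i))
    (hX : ∀ G : MvPolynomial (Fin m) k, MvPolynomial.aeval ξ G = 0 → MvPolynomial.aeval 𝒳 G = 0)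
    (ψ : A →ₐ[k] Q)
    (hψ : Function.Injective ψ) : ∃ i : L →ₐ[k] Q, ∀ n, i (ξ n) = ψ (𝒳 n) := by
  classical
  have hjG : ∀ G : MvPolynomial (Fin m) k,
      MvPolynomial.aeval (fun i => π (𝒳 i)) G = j (MvPolynomial.aeval ξ G) := by
    intro G
    rw [← AlgHom.comp_apply, MvPolynomial.comp_aeval]
    simp only [hπ]
  have hker : ∀ G : MvPolynomial (Fin m) k,
      MvPolynomial.aeval ξ G = 0 ↔ MvPolynomial.aeval 𝒳 G = 0 := by
    intro G
    constructor
    · exact hX G
    · intro h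
      have h2 : j (MvPolynomial.aeval ξ G) = j 0 := by
        rw [← hjG, map_zero, ← MvPolynomial.comp_aeval_apply, h, map_zero]
      exact j.injective h2
  let f : MvPolynomial (Fin m) k →ₐ[k] L := MvPolynomial.aeval ξ
  let B := f.range
  let g : MvPolynomial (Fin m) k →ₐ[k] Q := ψ.comp (MvPolynomial.aeval 𝒳)
  have hle : RingHom.ker f.rangeRestrict ≤ RingHom.ker g := by
    intro G hG
    rw [RingHom.mem_ker] at hG ⊢
    have h1 : MvPolynomial.aeval ξ G = 0 := congrArg Subtype.val hG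
    have h2 := (hker G).1 h1
    change ψ (MvPolynomial.aeval 𝒳 G) = 0
    rw [h2, map_zero]
  let e := Ideal.quotientKerAlgEquivOfSurjective f.rangeRestrict_surjective
  let g' : B →ₐ[k] Q := (Ideal.Quotient.liftₐ (RingHom.ker f.rangeRestrict) g
    (fun a ha => hle ha)).comp e.symm.toAlgHom
  have hg' : ∀ G, g' (f.rangeRestrict G) = ψ (MvPolynomial.aeval 𝒳 G) := by
    intro G
    have h1 : e.symm (f.rangeRestrict G) = Ideal.Quotient.mk _ G := by
      rw [AlgEquiv.symm_apply_eq]
      rfl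
    change (Ideal.Quotient.liftₐ (RingHom.ker f.rangeRestrict) g
      (fun a ha => hle ha)) (e.symm (f.rangeRestrict G)) = _
    rw [h1]
    rfl
  have hinj : Function.Injective g' := by
    rw [injective_iff_map_eq_zero]
    intro b hb
    obtain ⟨G, rfl⟩ := f.rangeRestrict_surjective b
    rw [hg'] at hb
    have h1 : MvPolynomial.aeval 𝒳 G = 0 := hψ (by rw [hb, map_zero])
    exact Subtype.ext ((hker G).2 h1)
  have hfrac : IsFractionRing B L := by
    refine IsFractionRing.of_field B L (fun z => ?_)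
    have hz : z ∈ IntermediateField.adjoin k (Set.range ξ) := by
      rw [hgen]
      exact IntermediateField.mem_top
    obtain ⟨r, hr, s, hs, rfl⟩ := IntermediateField.mem_adjoin_iff_div.1 hz
    rw [Algebra.adjoin_range_eq_range_aeval] at hr hs
    exact ⟨⟨r, hr⟩, ⟨s, hs⟩, rfl⟩
  refine ⟨IsFractionRing.liftAlgHom (K := L) hinj, fun n => ?_⟩
  rw [IsFractionRing.liftAlgHom_apply]
  have h1 : ξ n = algebraMap B L (f.rangeRestrict (MvPolynomial.X n)) := by
    change ξ n = MvPolynomial.aeval ξ (MvPolynomial.X n)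
    rw [MvPolynomial.aeval_X]
  rw [h1, IsFractionRing.lift_algebraMap]
  change g' (f.rangeRestrict (MvPolynomial.X n)) = _
  rw [hg', MvPolynomial.aeval_X]

end

section Arc

variable {k : Type u} {L : Type u} {M : Type u} [Field k] [Field L] [Algebra k L] [Field M]
  [Algebra k M] {m : ℕ}

theorem embed_arc' (ξ : Fin m → L)
    (hgen : IntermediateField.adjoin k (Set.range ξ) = ⊤)
    (j : L →ₐ[k] M) (𝒳 : Fin m → M[X]) (h1 : ∀ i, (𝒳 i).eval 0 = j (ξ i))
    (h2 : ∀ G : MvPolynomial (Fin m) k, MvPolynomial.aeval ξ G = 0 → MvPolynomial.aeval 𝒳 G = 0)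
    (i : Fin m) (hi : (𝒳 i).natDegree ≠ 0) :
    ∃ (e : L →ₐ[k] RatFunc M) (a : L), Transcendental M (e a) := by
  let π : M[X] →ₐ[k] M := (Polynomial.aeval (0 : M)).restrictScalars k
  let ψ : M[X] →ₐ[k] RatFunc M := IsScalarTower.toAlgHom k M[X] (RatFunc M)
  obtain ⟨e, he⟩ := exists_embedding' ξ hgen j π 𝒳 (fun n => by
    have : π (𝒳 n) = (𝒳 n).eval 0 := by
      change Polynomial.aeval (0 : M) (𝒳 n) = _
      rw [Polynomial.coe_aeval_eq_eval]
    rw [this, h1]) h2 ψ (IsFractionRing.injective M[X] (RatFunc M))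
  refine ⟨e, ξ i, ?_⟩
  rw [he]
  have h3 : Transcendental M (𝒳 i) := Polynomial.transcendental _ hi
    (mem_nonZeroDivisors_of_ne_zero (leadingCoeff_ne_zero.2 (fun h => hi (by rw [h, natDegree_zero]))))
  exact (transcendental_algebraMap_iff (IsFractionRing.injective M[X] (RatFunc M))).2 h3

end Arc

section Descent

variable {k : Type u} {L : Type u} [Field k] [Field L] [Algebra k L] {m : ℕ}

theorem uniruled_of_arc' (ξ : Fin m → L)
    (hgen : IntermediateField.adjoin k (Set.range ξ) = ⊤)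
    (hfin : Algebra.trdeg k L < Cardinal.aleph0)
    (𝒳 : Fin m → (AlgebraicClosure L)[X])
    (h1 : ∀ i, (𝒳 i).eval 0 = algebraMap L (AlgebraicClosure L) (ξ i))
    (h2 : ∀ G : MvPolynomial (Fin m) k, MvPolynomial.aeval ξ G = 0 → MvPolynomial.aeval 𝒳 G = 0)
    (i : Fin m) (hi : (𝒳 i).natDegree ≠ 0) :
    Uniruled k L := by
  classical
  obtain ⟨M, hMT, hfg, htrM, hML⟩ := descent ξ hgen
    (Finset.univ.biUnion (fun n => (𝒳 n).coeffs) ∪
      Finset.univ.image (fun n => algebraMap L (AlgebraicClosure L) (ξ n)))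
    (fun n => Finset.mem_union_right _ (Finset.mem_image_of_mem _ (Finset.mem_univ n)))
  choose 𝒳' h𝒳' using fun n => exists_lift M (𝒳 n) (fun b hb => hMT b
    (Finset.mem_union_left _ (Finset.mem_biUnion.2 ⟨n, Finset.mem_univ n, hb⟩)))
  let j : L →ₐ[k] M :=
    { (algebraMap L (AlgebraicClosure L)).codRestrict M hML with
      commutes' := fun b => by
        apply Subtype.ext
        exact (IsScalarTower.algebraMap_apply k L (AlgebraicClosure L) b).symm }
  obtain ⟨e, a, ha⟩ := embed_arc' ξ hgen j 𝒳' (fun n => by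
    apply Subtype.ext
    change (M.val : M →+* AlgebraicClosure L) ((𝒳' n).eval 0) =
      algebraMap L (AlgebraicClosure L) (ξ n)
    rw [← h1, ← h𝒳', eval_zero_map]) (by
    intro G hG
    apply Polynomial.map_injective (M.val : M →+* AlgebraicClosure L) M.val.injective
    rw [map_aeval_val, Polynomial.map_zero, ← h2 G hG]
    congr 2
    ext1 n
    exact h𝒳' n) i (by
      rw [← h𝒳', natDegree_map] at hi
      exact hi)
  obtain ⟨M₂, f1, f2, f3, f4, f5⟩ := cut ξ hgen hfin htrM hfg e a ha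
  exact ⟨M₂, f1, f2, f3, f4, f5⟩

/-- values in a domain: `G φ(w) = H` makes `w` algebraic over the other coordinates -/
theorem alg_phi {A : Type*} [CommRing A] [IsDomain A] [Algebra k A] (φ : k[X])
    (hdeg : 0 < φ.natDegree) (𝒳 : Fin m → A) (i₀ : Fin m) (H G : MvPolynomial (Fin m) k)
    (hH : i₀ ∉ H.vars) (hG : i₀ ∉ G.vars) (hG0 : MvPolynomial.aeval 𝒳 G ≠ 0)
    (h : MvPolynomial.aeval 𝒳 G * aeval (𝒳 i₀) φ = MvPolynomial.aeval 𝒳 H) :
    IsAlgebraic (Algebra.adjoin k (Set.range fun i : {i // i ≠ i₀} => 𝒳 i)) (𝒳 i₀) := by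
  classical
  let B := Algebra.adjoin k (Set.range fun i : {i // i ≠ i₀} => 𝒳 i)
  have hmem : ∀ P : MvPolynomial (Fin m) k, i₀ ∉ P.vars → MvPolynomial.aeval 𝒳 P ∈ B := by
    intro P hP
    obtain ⟨P', rfl⟩ := MvPolynomial.exists_rename_eq_of_vars_subset_range P
      (Subtype.val : {i : Fin m // i ≠ i₀} → Fin m) Subtype.val_injective (by
        intro i hi
        exact ⟨⟨i, fun h => hP (h ▸ hi)⟩, rfl⟩)
    rw [MvPolynomial.aeval_rename]
    show _ ∈ Algebra.adjoin k (Set.range fun i : {i // i ≠ i₀} => 𝒳 i)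
    rw [Algebra.adjoin_range_eq_range_aeval]
    exact ⟨P', rfl⟩
  let g : B := ⟨MvPolynomial.aeval 𝒳 G, hmem G hG⟩
  let c : B := ⟨MvPolynomial.aeval 𝒳 H, hmem H hH⟩
  refine ⟨C g * φ.map (algebraMap k B) - C c, ?_, ?_⟩
  · intro h0
    have h1 : φ.map (algebraMap k B) ≠ 0 := by
      intro h2
      have h3 := natDegree_map_eq_of_injective (f := algebraMap k B)
        (FaithfulSMul.algebraMap_injective k B) φ
      rw [h2, natDegree_zero] at h3
      omega
    have h2 := congrArg natDegree (sub_eq_zero.1 h0)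
    have hg0 : g ≠ 0 := fun h => hG0 (congrArg Subtype.val h)
    rw [natDegree_C_mul hg0, natDegree_C, natDegree_map_eq_of_injective
      (FaithfulSMul.algebraMap_injective k B)] at h2
    omega
  · rw [map_sub, map_mul, aeval_C, aeval_C, aeval_map_algebraMap]
    show MvPolynomial.aeval 𝒳 G * aeval (𝒳 i₀) φ - MvPolynomial.aeval 𝒳 H = 0
    rw [h, sub_self]

theorem uniruled_of_arc2 (φ : k[X]) (hdeg : 1 < φ.natDegree)
    (ξ : Fin m → L) (hgen : IntermediateField.adjoin k (Set.range ξ) = ⊤)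
    (hfin : Algebra.trdeg k L < Cardinal.aleph0)
    (htr : (m : Cardinal) ≤ Algebra.trdeg k L + 2) (i₀ : Fin m) (P : MvPolynomial (Fin m) k)
    (hP0 : P ≠ 0) (hPv : i₀ ∉ P.vars) (hP : MvPolynomial.aeval ξ P = 0)
    (H G : MvPolynomial (Fin m) k)
    (hH : i₀ ∉ H.vars) (hG : i₀ ∉ G.vars) (hG0 : MvPolynomial.aeval ξ G ≠ 0)
    (h0 : MvPolynomial.aeval ξ G * aeval (ξ i₀) φ = MvPolynomial.aeval ξ H)
    (𝒳 : Fin m → (AlgebraicClosure L)[X])
    (h1 : ∀ i, (𝒳 i).eval 0 = algebraMap L (AlgebraicClosure L) (ξ i))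
    (h2 : MvPolynomial.aeval 𝒳 P = 0)
    (h3 : MvPolynomial.aeval 𝒳 G * aeval (𝒳 i₀) φ = MvPolynomial.aeval 𝒳 H) (i : Fin m)
    (hi : (𝒳 i).natDegree ≠ 0) : Uniruled k L := by
  let j : L →ₐ[k] AlgebraicClosure L := IsScalarTower.toAlgHom k L (AlgebraicClosure L)
  let π : (AlgebraicClosure L)[X] →ₐ[k] AlgebraicClosure L :=
    (Polynomial.aeval (0 : AlgebraicClosure L)).restrictScalars k
  have hπ : ∀ i, π (𝒳 i) = j (ξ i) := by
    intro n
    have : π (𝒳 n) = (𝒳 n).eval 0 := by
      change Polynomial.aeval (0 : AlgebraicClosure L) (𝒳 n) = _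
      rw [Polynomial.coe_aeval_eq_eval]
    rw [this, h1]
    rfl
  have hG1 : MvPolynomial.aeval 𝒳 G ≠ 0 := by
    intro h
    have h4 : j (MvPolynomial.aeval ξ G) = π (MvPolynomial.aeval 𝒳 G) := by
      rw [MvPolynomial.comp_aeval_apply, MvPolynomial.comp_aeval_apply]
      congr 2
      ext n
      exact (hπ n).symm
    rw [h, map_zero] at h4
    exact hG0 ((map_eq_zero_iff j j.injective).1 h4)
  exact uniruled_of_arc' ξ hgen hfin 𝒳 h1 (fun Q hQ => ker2 ξ hgen htr i₀ P hP0 hPv hP
    (alg_phi φ (by omega) ξ i₀ H G hH hG hG0 h0) j π 𝒳 hπ h2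
    (alg_phi φ (by omega) 𝒳 i₀ H G hH hG hG1 h3) Q hQ) i hi

end Descent

end Pool.Agent.ADT
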