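import Pool.Agent.ADT.A4
import Pool.Agent.ADT.C1
import Pool.Agent.WLD.EB

/-!
# Towers of Artin-Schreier extensions of a uniruled surface
-/

set_option autoImplicit false

namespace Pool.Agent.ADT

open Polynomial Pool.Agent.TBR Pool.Agent.TUQ Pool.Agent.UQ Pool.Agent.WLD

universe u

section

variable {k M : Type u} [Field k] [Field M] [Algebra k M]

/-- the families: `K₀ = E(x_1, …, x_r)`, `g(x) = 0`, `E / k` finitely generated of transcendence
degree `3 - r`, `φ(z) = f(x) / q(x) ^ e`, and the equations `g = 0`, `(a q) ^ e = f - q ^ e φ(w)`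
over `E` have degrees at most `d` and `D` for weights `ω` of the `x_i`, `α` of `a q` and `γ` of `w`
whose sum is at least `d + D` -/
def FamG (K₀ : IntermediateField k M) (z : M) (φ : k[X]) (e : ℕ) : Prop :=
  ∃ (r : ℕ) (E : IntermediateField k M) (x : Fin r → M) (g f q : MvPolynomial (Fin r) E)
    (ω : Fin r → ℕ) (α γ d D : ℕ),
    E.FG ∧ K₀ = E ⊔ IntermediateField.adjoin k (Set.range x) ∧ Algebra.trdeg k E + r = 3 ∧
      g ≠ 0 ∧ MvPolynomial.aeval x g = 0 ∧ MvPolynomial.aeval x q ≠ 0 ∧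
      aeval z φ * MvPolynomial.aeval x q ^ e = MvPolynomial.aeval x f ∧
      MvPolynomial.weightedTotalDegree ω g ≤ d ∧
      MvPolynomial.weightedTotalDegree ω f ≤ D ∧ e * α ≤ D ∧
      e * MvPolynomial.weightedTotalDegree ω q + max 1 (φ.natDegree * γ) ≤ D ∧
      d + D ≤ ∑ i, ω i + α + γ

/-- the threefolds of the families are uniruled -/
theorem uniruled_famG [IsAlgClosed M] (K₀ : IntermediateField k M)
    (htd : Algebra.trdeg k M = 2) (hal : ∀ x : M, IsAlgebraic K₀ x) (φ : k[X]) (e : ℕ)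
    (had : Ad φ e) (z : M) (zN : aeval z φ ∈ K₀)
    (L : Type u) [Field L] [Algebra k L] [Algebra K₀ L] [IsScalarTower k K₀ L] (a w : L)
    (ha : Transcendental K₀ a)
    (hw : aeval w φ + a ^ e = algebraMap K₀ L ⟨aeval z φ, zN⟩)
    (hgen : IntermediateField.adjoin K₀ {a, w} = ⊤) (hF : FamG K₀ z φ e) : Uniruled k L := by
  obtain ⟨r, E, x, g, f, q, ω, α, γ, d, D, hEfg, hK₀, htr, hg0, hg, hq, hzf, h0, h1, h2, h3,
    h4⟩ := hF
  have hle : E ≤ K₀ := by
    rw [hK₀]
    exact le_sup_left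
  have hxK : ∀ i, x i ∈ K₀ := fun i => by
    rw [hK₀]
    exact (le_sup_right : IntermediateField.adjoin k (Set.range x) ≤ _)
      (IntermediateField.subset_adjoin _ _ ⟨i, rfl⟩)
  let ι : E →ₐ[k] K₀ := IntermediateField.inclusion hle
  let algE : Algebra E K₀ := ι.toRingHom.toAlgebra
  let algL : Algebra E L := ((algebraMap K₀ L).comp ι.toRingHom).toAlgebra
  have tow1 : IsScalarTower E K₀ L := IsScalarTower.of_algebraMap_eq (fun _ => rfl)
  have tow2 : IsScalarTower k E K₀ := IsScalarTower.of_algebraMap_eq (fun b => (ι.commutes b).symm)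
  have tow3 : IsScalarTower k E L := IsScalarTower.of_algebraMap_eq (fun b => by
    rw [IsScalarTower.algebraMap_apply k K₀ L, ← ι.commutes b]
    rfl)
  have tow4 : IsScalarTower E K₀ M := IsScalarTower.of_algebraMap_eq (fun _ => rfl)
  let ξ : Fin r → K₀ := fun i => ⟨x i, hxK i⟩
  have hval : ∀ P : MvPolynomial (Fin r) E, ((MvPolynomial.aeval ξ P : K₀) : M) =
      MvPolynomial.aeval x P := fun P =>
    (MvPolynomial.aeval_algebraMap_apply (A := K₀) (B := M) ξ P).symm
  have hgen₀ : IntermediateField.adjoin E (Set.range ξ) = ⊤ := by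
    rw [eq_top_iff]
    intro b _
    let N' : IntermediateField k M :=
      ((IntermediateField.adjoin E (Set.range ξ)).restrictScalars k).map K₀.val
    have hE : E ≤ N' := fun c hc => ⟨⟨c, hle hc⟩,
      (IntermediateField.adjoin E (Set.range ξ)).algebraMap_mem ⟨c, hc⟩, rfl⟩
    have hx : IntermediateField.adjoin k (Set.range x) ≤ N' := by
      rw [IntermediateField.adjoin_le_iff]
      rintro _ ⟨i, rfl⟩
      exact ⟨ξ i, IntermediateField.subset_adjoin E _ ⟨i, rfl⟩, rfl⟩
    have hb : (b : M) ∈ E ⊔ IntermediateField.adjoin k (Set.range x) := by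
      rw [← hK₀]
      exact b.2
    obtain ⟨c, hc, hcb⟩ := (sup_le hE hx) hb
    have e : c = b := Subtype.ext hcb
    rw [← e]
    exact hc
  have htd₀ : Algebra.trdeg k K₀ = 2 := by
    have h1 : Algebra.IsAlgebraic K₀ M := ⟨hal⟩
    have h3 := trdeg_add_eq k K₀ (A := M)
    rwa [trdeg_eq_zero_iff.2 h1, add_zero, htd] at h3
  have hlt : (2 : Cardinal.{u}) < Cardinal.aleph0 := by
    exact_mod_cast Cardinal.natCast_lt_aleph0 (n := 2)
  have h5 := trdeg_add_eq k E (A := K₀)
  rw [htd₀] at h5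
  have hE2 : Algebra.trdeg k E ≤ 2 := by
    rw [← h5]
    exact self_le_add_right _ _
  have htdE : Algebra.trdeg E K₀ + 1 = r := by
    have h6 : Algebra.trdeg k E + (Algebra.trdeg E K₀ + 1) = Algebra.trdeg k E + r := by
      rw [htr, ← add_assoc, h5]
      norm_num
    exact Cardinal.eq_of_add_eq_add_left h6 (hE2.trans_lt hlt)
  have hEfg' : (⊤ : IntermediateField k E).FG := by
    rw [IntermediateField.fg_top_iff]
    exact IntermediateField.essFiniteType_iff.2 hEfg
  have hq' : MvPolynomial.aeval ξ q ≠ 0 := by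
    intro h
    apply hq
    rw [← hval, h]
    rfl
  have hg' : MvPolynomial.aeval ξ g = 0 := by
    apply Subtype.ext
    rw [hval, hg]
    rfl
  have hw' : (aeval w (φ.map (algebraMap k E)) + a ^ e) *
      algebraMap K₀ L (MvPolynomial.aeval ξ q) ^ e =
      algebraMap K₀ L (MvPolynomial.aeval ξ f) := by
    rw [aeval_map_algebraMap, hw, ← map_pow, ← map_mul]
    congr 1
    apply Subtype.ext
    show aeval z φ * ((MvPolynomial.aeval ξ q : K₀) : M) ^ e = ((MvPolynomial.aeval ξ f : K₀) : M)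
    rw [hval, hval, hzf]
  refine Uniruled.tower (E := E) hEfg' (fam_uniG (κ := E) (φ.map (algebraMap k E))
    (AddPoly.map' had.add) ?_ e ξ hgen₀ htdE g hg0 hg' f q hq' a w ha hw' hgen ω α γ d D h0 h1 h2 ?_
    h4)
  · rw [natDegree_map]
    exact had.deg
  · rw [natDegree_map]
    exact h3


theorem num_lt {p e α γ D d w : ℕ} (hp : 2 ≤ p) (he : 2 ≤ e) (hpe : e ≠ p) (hD : 1 ≤ D)
    (h1 : e * α ≤ D) (h2 : p * γ ≤ D) (h3 : d + D ≤ w + α + γ) : d < w := by
  have h4 : 3 ≤ e ∨ 3 ≤ p := by omega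
  rcases h4 with h4 | h4
  · have h5 : 3 * α ≤ D := (Nat.mul_le_mul_right α h4).trans h1
    have h6 : 2 * γ ≤ D := (Nat.mul_le_mul_right γ hp).trans h2
    omega
  · have h5 : 2 * α ≤ D := (Nat.mul_le_mul_right α he).trans h1
    have h6 : 3 * γ ≤ D := (Nat.mul_le_mul_right γ h4).trans h2
    omega

theorem emt_two {L : IntermediateField k M} (h : Two L) (hal : ∀ x : M, IsAlgebraic L x) :
    Emt L :=
  ⟨1, fun _ => L, fun _ => ⟨h, hal⟩, fun _ _ _ =>
    pi_const_aux (MonoidHom.id _) Function.injective_id⟩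

theorem natDegree_art (p : ℕ) [Fact p.Prime] : (X ^ p - X : k[X]).natDegree = p := by
  have hp : 1 < p := (Fact.out : p.Prime).one_lt
  rw [natDegree_sub_eq_left_of_natDegree_lt] <;> simp [hp]

theorem FamG.emt [IsAlgClosed M] (p : ℕ) [Fact p.Prime] [CharP k p]
    (K₀ : IntermediateField k M) (htd : Algebra.trdeg k M = 2)
    (hal : ∀ x : M, IsAlgebraic K₀ x) (e : ℕ) (he : 2 ≤ e) (hek : (e : k) ≠ 0)
    (z : M) (h : FamG K₀ z (X ^ p - X) e) : Emt K₀ := by
  obtain ⟨r, E, x, g, f, q, ω, α, γ, d, D, hEfg, hK₀, htr, hg0, hg, -, -, h0, -, h2, h3, h4⟩ := h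
  rw [natDegree_art p] at h3
  refine emt_hyper htd E hEfg x htr K₀ hK₀ hal g hg0 hg ω (lt_of_le_of_lt h0 ?_)
  have h5 := le_max_left 1 (p * γ)
  have h6 := le_max_right 1 (p * γ)
  refine num_lt (Fact.out : p.Prime).two_le he ?_ (by omega : 1 ≤ D) h2 (by omega) h4
  rintro rfl
  exact hek (CharP.cast_eq_zero k e)

/-- the cyclic case -/
theorem emt_cyclicG [IsAlgClosed M] (p : ℕ) [Fact p.Prime] [CharP k p]
    (K₀ : IntermediateField k M) (hfg : K₀.FG) (htd : Algebra.trdeg k M = 2)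
    (hal : ∀ x : M, IsAlgebraic K₀ x) (e : ℕ) (he : 2 ≤ e) (hek : (e : k) ≠ 0)
    (z : M) (zN : aeval z (X ^ p - X : k[X]) ∈ K₀) (h : FamG K₀ z (X ^ p - X) e) :
    Emt (K₀ ⊔ IntermediateField.adjoin k {z}) := by
  have had := ad_artin (k := k) p e he hek
  have hsp : Emt K₀ := h.emt p K₀ htd hal e he hek z
  by_cases hz : z ∈ K₀
  · have h1 : K₀ ⊔ IntermediateField.adjoin k {z} = K₀ := by
      refine sup_eq_left.2 ?_
      rw [IntermediateField.adjoin_le_iff]
      rintro y rfl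
      exact hz
    rw [h1]
    exact hsp
  obtain ⟨L, i1, i2, i3, i4, a, w, ha, hw, hgen⟩ := fam_exists (X ^ p - X : k[X]) e had
    (⟨aeval z (X ^ p - X : k[X]), zN⟩ : K₀)
  obtain ⟨n, L', h1, h2⟩ := finalW (fun Ω _ _ => blockR k Ω) (fun Ω _ _ => blockGW k Ω)
    (fun A _ _ => invSt_aux k A) K₀ hfg htd hal (X ^ p - X) e had z zN
    (irr_of_notMem p K₀ z hz zN) L a w ha hw hgen
    (uniruled_famG K₀ htd hal (X ^ p - X) e had z zN L a w ha hw hgen h)
  refine emt_of_inj (K' := KZ K₀ z) (fun ℓ _ => ⟨MonoidHom.id _, Function.injective_id⟩) L' h2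
    fun j => ?_
  rcases (h1 j).1 with h3 | h3
  · exact emt_two h3 (h1 j).2
  · rw [h3]
    exact hsp

theorem tower_injG [IsAlgClosed M] (p : ℕ) [Fact p.Prime] [CharP k p]
    (htd : Algebra.trdeg k M = 2) (x : Fin 3 → M)
    (hal : ∀ y : M, IsAlgebraic (IntermediateField.adjoin k (Set.range x)) y)
    (g q : MvPolynomial (Fin 3) k) (hg0 : g ≠ 0) (hg : MvPolynomial.aeval x g = 0)
    (hq : MvPolynomial.aeval x q ≠ 0) (ω : Fin 3 → ℕ) (e α γ d D : ℕ) (he : 2 ≤ e) (hek : (e : k) ≠ 0)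
    (h0 : MvPolynomial.weightedTotalDegree ω g ≤ d) (h1 : e * α ≤ D)
    (h2 : e * MvPolynomial.weightedTotalDegree ω q + max 1 (p * γ) ≤ D)
    (h3 : d + D ≤ ω 0 + ω 1 + ω 2 + α + γ) (S : Finset M)
    (hS : ∀ z ∈ S, ∃ (φ : k[X]) (f : MvPolynomial (Fin 3) k), AddPoly φ ∧ derivative φ ≠ 0 ∧
      MvPolynomial.weightedTotalDegree ω f ≤ D ∧
        aeval z φ * MvPolynomial.aeval x q ^ e = MvPolynomial.aeval x f)
    (F : IntermediateField k M)
    (hF : F ≤ IntermediateField.adjoin k (Set.range x ∪ (S : Set M)))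
    (hFal : ∀ y : M, IsAlgebraic F y) : Emt F := by
  classical
  have hCM : CharP M p := charP_of_injective_algebraMap (algebraMap k M).injective p
  obtain ⟨C₀, r, y, hC₀, hy, hz⟩ := exists_span p x q hq ω e D S hS
  choose f hf hfy using hy
  obtain ⟨E, hE⟩ : ∃ E, E = IntermediateField.adjoin k (C₀ : Set M) := ⟨_, rfl⟩
  rw [← hE] at hz
  subst hE
  have hxfg : (IntermediateField.adjoin k (Set.range x) : IntermediateField k M).FG :=
    ⟨Finset.univ.image x, by rw [Finset.coe_image, Finset.coe_univ, Set.image_univ]⟩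
  have hyfg : (IntermediateField.adjoin k (Set.range y) : IntermediateField k M).FG :=
    ⟨Finset.univ.image y, by rw [Finset.coe_image, Finset.coe_univ, Set.image_univ]⟩
  have hEfg : (IntermediateField.adjoin k (C₀ : Set M)).FG := ⟨C₀, rfl⟩
  have hEalg : Algebra.IsAlgebraic k (IntermediateField.adjoin k (C₀ : Set M)) :=
    IntermediateField.isAlgebraic_adjoin fun c hc => (hC₀ c hc).isIntegral
  have hEtd : Algebra.trdeg k (IntermediateField.adjoin k (C₀ : Set M)) = 0 :=
    trdeg_eq_zero_iff.2 hEalg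
  obtain ⟨K₀, hK₀⟩ : ∃ K₀, K₀ = IntermediateField.adjoin k (C₀ : Set M) ⊔
    IntermediateField.adjoin k (Set.range x) := ⟨_, rfl⟩
  have hK₀fg : K₀.FG := by
    rw [hK₀]
    exact IntermediateField.fg_sup hEfg hxfg
  have hxK₀ : IntermediateField.adjoin k (Set.range x) ≤ K₀ := by
    rw [hK₀]
    exact le_sup_right
  have hK₀al : ∀ y : M, IsAlgebraic K₀ y := fun y => alg_le hxK₀ (hal y)
  have hqE : MvPolynomial.aeval x (MvPolynomial.map (algebraMap k
      (IntermediateField.adjoin k (C₀ : Set M))) q) = MvPolynomial.aeval x q :=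
    MvPolynomial.aeval_map_algebraMap _ x q
  have hgE : MvPolynomial.aeval x (MvPolynomial.map (algebraMap k
      (IntermediateField.adjoin k (C₀ : Set M))) g) = 0 :=
    (MvPolynomial.aeval_map_algebraMap _ x g).trans hg
  have hgE0 : MvPolynomial.map (algebraMap k
      (IntermediateField.adjoin k (C₀ : Set M))) g ≠ 0 := by
    intro h
    exact hg0 (MvPolynomial.map_injective _ (algebraMap k _).injective (by rw [h, map_zero]))
  have hgw : MvPolynomial.weightedTotalDegree ω (MvPolynomial.map (algebraMap k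
      (IntermediateField.adjoin k (C₀ : Set M))) g) ≤ d := by
    rw [wtd_le_iff]
    intro m hm
    exact (wtd_le_iff ω g _).1 h0 m (MvPolynomial.support_map_subset _ _ hm)
  have hqw : MvPolynomial.weightedTotalDegree ω (MvPolynomial.map (algebraMap k
      (IntermediateField.adjoin k (C₀ : Set M))) q) ≤
      MvPolynomial.weightedTotalDegree ω q := by
    rw [wtd_le_iff]
    intro d hd
    exact (wtd_le_iff ω q _).1 le_rfl d (MvPolynomial.support_map_subset _ _ hd)
  have hqK₀ : MvPolynomial.aeval x q ∈ K₀ := by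
    rw [hK₀, ← hqE]
    exact aeval_mem_sup _ x _
  have hyK₀ : ∀ i, y i ^ p - y i ∈ K₀ := by
    intro i
    have h5 : y i ^ p - y i = MvPolynomial.aeval x (f i) / MvPolynomial.aeval x q ^ e := by
      rw [eq_div_iff (pow_ne_zero _ hq), hfy i]
    rw [h5]
    refine div_mem ?_ (pow_mem hqK₀ _)
    rw [hK₀]
    exact aeval_mem_sup _ x _
  -- the big field
  have hK'fg : (K₀ ⊔ IntermediateField.adjoin k (Set.range y) : IntermediateField k M).FG :=
    IntermediateField.fg_sup hK₀fg hyfg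
  have hFK' : F ≤ K₀ ⊔ IntermediateField.adjoin k (Set.range y) := by
    refine hF.trans ?_
    rw [IntermediateField.adjoin_le_iff]
    rintro u (hu | hu)
    · exact (le_sup_left : K₀ ≤ _) (hxK₀ (IntermediateField.subset_adjoin _ _ hu))
    · rw [hK₀]
      exact hz u hu
  refine emt_of_inj (K' := K₀ ⊔ IntermediateField.adjoin k (Set.range y)) (ι := Fin r → ZMod p)
    (fun ℓ hℓ => vl_res F _ hFK' hK'fg hFal hℓ) _
    (fun ℓ hℓ _ => ea_inj K₀ hK₀fg hK₀al p y hyK₀ hℓ) fun c => ?_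
  -- the cyclic case
  show Emt (K₀ ⊔ IntermediateField.adjoin k {∑ i, ((c i).val : M) * y i})
  have hY := comb_eq p (fun i => (c i).val) y
  set Y := ∑ i, ((c i).val : M) * y i with hYdef
  have hYa : aeval Y (X ^ p - X : k[X]) = Y ^ p - Y := by
    rw [map_sub, map_pow, aeval_X]
  have hYK₀ : aeval Y (X ^ p - X : k[X]) ∈ K₀ := by
    rw [hYa, hY]
    exact sum_mem fun i _ => mul_mem (natCast_mem K₀ _) (hyK₀ i)
  refine emt_cyclicG p K₀ hK₀fg htd hK₀al e he hek Y hYK₀ ?_
  refine ⟨3, IntermediateField.adjoin k (C₀ : Set M), x, MvPolynomial.map (algebraMap k _) g,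
    ∑ i, ((c i).val : IntermediateField.adjoin k (C₀ : Set M)) • f i,
    MvPolynomial.map (algebraMap k _) q, ω, α, γ, d, D, hEfg, hK₀, ?_, hgE0, hgE, ?_, ?_, hgw, ?_,
    h1, ?_, ?_⟩
  · rw [hEtd]
    norm_num
  · rw [hqE]
    exact hq
  · rw [hYa, hY, hqE, map_sum, Finset.sum_mul]
    refine Finset.sum_congr rfl fun i _ => ?_
    rw [mul_assoc, hfy i, map_smul, Algebra.smul_def, map_natCast]
  · rw [wtd_le_iff]
    intro d hd
    obtain ⟨i, -, hi⟩ := Finset.mem_biUnion.1 (MvPolynomial.support_sum hd)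
    exact (wtd_le_iff ω (f i) D).1 (hf i) d (MvPolynomial.support_smul hi)
  · have h6 : (X ^ p - X : k[X]).natDegree = p := by
      have hp : 1 < p := (Fact.out : p.Prime).one_lt
      rw [natDegree_sub_eq_left_of_natDegree_lt] <;> simp [hp]
    rw [h6]
    exact (Nat.add_le_add_right (Nat.mul_le_mul_left _ hqw) _).trans h2
  · rw [Fin.sum_univ_three]
    exact h3

end

end Pool.Agent.ADT
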