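import Mathlib

/-!
# The field of functions of an elliptic curve in an algebraically closed field
-/

set_option autoImplicit false

namespace Pool.Agent.ADT

open Polynomial

/-- transitivity -/
theorem algTrans {k K Ω : Type*} [Field k] [Field K] [Field Ω] [Algebra k Ω] [Algebra K Ω]
    (A : IntermediateField k Ω) (hK : ∀ a : K, IsAlgebraic A (algebraMap K Ω a)) (b : Ω)
    (hb : IsAlgebraic K b) : IsAlgebraic A b := by
  obtain ⟨E, hE⟩ : ∃ E : IntermediateField A Ω, E = algebraicClosure A Ω := ⟨_, rfl⟩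
  have hE' : ∀ a : K, algebraMap K Ω a ∈ E := fun a => by
    rw [hE]
    exact mem_algebraicClosure_iff.2 (hK a)
  let ψ : K →+* E := (algebraMap K Ω).codRestrict E hE'
  have hint : IsIntegral E b := by
    have h1 : IsIntegral K b := hb.isIntegral
    refine ⟨(minpoly K b).map ψ, (minpoly.monic h1).map ψ, ?_⟩
    rw [eval₂_map]
    have h2 : (algebraMap E Ω).comp ψ = algebraMap K Ω := RingHom.ext fun _ => rfl
    rw [h2]
    exact minpoly.aeval K b
  have halgE : Algebra.IsAlgebraic A E := by
    rw [hE]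
    infer_instance
  exact hint.isAlgebraic.restrictScalars A

theorem alg_adjoin {k Ω : Type*} [Field k] [Field Ω] [Algebra k Ω]
    (A : IntermediateField k Ω) (T : Set Ω) (hT : ∀ a ∈ T, IsAlgebraic A a) (b : Ω)
    (hb : b ∈ IntermediateField.adjoin k T) : IsAlgebraic A b := by
  have h1 : IntermediateField.adjoin k T ≤ (algebraicClosure A Ω).restrictScalars k := by
    rw [IntermediateField.adjoin_le_iff]
    intro a ha
    exact mem_algebraicClosure_iff.2 (hT a ha)
  exact mem_algebraicClosure_iff.1 (h1 hb)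

/-- the solutions of `φ(z) = F(s)` -/
theorem alg_root {k Ω : Type*} [Field k] [Field Ω] [Algebra k Ω] (A : IntermediateField k Ω)
    (s z : Ω) (hs : s ∈ A) (φ F : k[X]) (hφ : φ.natDegree ≠ 0) (h : aeval z φ = aeval s F) :
    IsAlgebraic A z := by
  have hF : aeval s F ∈ A := by
    have h1 : aeval s F ∈ Algebra.adjoin k ({s} : Set Ω) :=
      Polynomial.aeval_mem_adjoin_singleton k s
    have h2 : Algebra.adjoin k ({s} : Set Ω) ≤ A.toSubalgebra :=
      Algebra.adjoin_le (by simpa using hs)
    exact h2 h1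
  refine ⟨φ.map (algebraMap k A) - C (⟨aeval s F, hF⟩ : A), ?_, ?_⟩
  · intro h0
    apply hφ
    rw [← natDegree_map (algebraMap k A), sub_eq_zero.1 h0, natDegree_C]
  · rw [map_sub, aeval_map_algebraMap, aeval_C, h]
    exact sub_self _

section

variable {k K Kb : Type*} [Field k] [Field K] [Field Kb] [Algebra k K] [Algebra k Kb]
  [Algebra K Kb] [IsScalarTower k K Kb]

omit [Algebra k K] [IsScalarTower k K Kb] in
theorem alg_K (s : K) (S : Finset Kb)
    (hS : ∀ z ∈ S, ∃ φ F : k[X], φ.natDegree ≠ 0 ∧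
      aeval z φ = aeval (algebraMap K Kb s) F)
    (hK : ∀ a : K, algebraMap K Kb a ∈
      IntermediateField.adjoin k (insert (algebraMap K Kb s) (S : Set Kb))) (a : K) :
    IsAlgebraic (IntermediateField.adjoin k {algebraMap K Kb s}) (algebraMap K Kb a) := by
  have hs : algebraMap K Kb s ∈ IntermediateField.adjoin k {algebraMap K Kb s} :=
    IntermediateField.mem_adjoin_simple_self _ _
  refine alg_adjoin _ _ ?_ _ (hK a)
  rintro z (rfl | hz)
  · exact isAlgebraic_algebraMap
      (⟨algebraMap K Kb s, hs⟩ : IntermediateField.adjoin k {algebraMap K Kb s})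
  · obtain ⟨φ, F, h1, h2⟩ := hS z hz
    exact alg_root _ _ z hs φ F h1 h2

/-- the field `K` is algebraic over `k(s)` -/
theorem alg_K' (s : K) (S : Finset Kb)
    (hS : ∀ z ∈ S, ∃ φ F : k[X], φ.natDegree ≠ 0 ∧
      aeval z φ = aeval (algebraMap K Kb s) F)
    (hK : ∀ a : K, algebraMap K Kb a ∈
      IntermediateField.adjoin k (insert (algebraMap K Kb s) (S : Set Kb))) (a : K) :
    IsAlgebraic (IntermediateField.adjoin k {s}) a := by
  have h1 := alg_K s S hS hK a
  let ι : K →ₐ[k] Kb := IsScalarTower.toAlgHom k K Kb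
  have h2 : IntermediateField.adjoin k {algebraMap K Kb s} =
      (IntermediateField.adjoin k {s}).map ι := by
    rw [IntermediateField.adjoin_map, Set.image_singleton]
    rfl
  rw [h2] at h1
  obtain ⟨q, hq0, hq⟩ := h1
  let e := (IntermediateField.adjoin k {s}).equivMap ι
  refine ⟨q.map (e.symm : _ ≃+* _).toRingHom, ?_, ?_⟩
  · exact (Polynomial.map_ne_zero_iff (RingHom.injective _)).2 hq0
  · apply (algebraMap K Kb).injective
    rw [map_zero, ← hq, aeval_def, aeval_def, eval₂_map, hom_eval₂]
    congr 1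
    ext b
    obtain ⟨b', rfl⟩ := e.surjective b
    show ι ((e.symm (e b') : IntermediateField.adjoin k {s}) : K) = _
    rw [e.symm_apply_apply]
    rfl

end

end Pool.Agent.ADT
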