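import Pool.Agent.WLD.W11a

/-!
# Arcs on `P = 0`, `G φ(w) = H` for an additive polynomial `φ`
-/

set_option autoImplicit false

namespace Pool.Agent.ADT

open Polynomial Pool.Agent.UQ Pool.Agent.WLD

universe u v

/-- `p + X ^ d t = 0` with `deg p ≤ d` and `t(0) = 0` -/
theorem split_eq_zero {K : Type u} [Field K] (d : ℕ) (p t : K[X]) (hp : p.natDegree ≤ d)
    (ht : t.coeff 0 = 0) (h : p + X ^ d * t = 0) : p = 0 ∧ t = 0 := by
  have ht0 : t = 0 := by
    by_contra hne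
    have h1 : t.natDegree ≠ 0 := by
      intro h0
      rw [natDegree_eq_zero] at h0
      obtain ⟨c, rfl⟩ := h0
      rw [coeff_C_zero] at ht
      exact hne (by rw [ht, C_0])
    have h2 : p = -(X ^ d * t) := eq_neg_of_add_eq_zero_left h
    have h3 : (X ^ d * t).natDegree = d + t.natDegree := by
      rw [natDegree_mul (pow_ne_zero _ X_ne_zero) hne, natDegree_X_pow]
    rw [h2, natDegree_neg, h3] at hp
    omega
  rw [ht0, mul_zero, add_zero] at h
  exact ⟨h, ht0⟩

section Arc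

variable {k : Type u} {K : Type v} [Field k] [Field K] [Algebra k K] [IsAlgClosed K] {m : ℕ}

theorem arc_phi2 (φ : k[X]) (P H G : MvPolynomial (Fin m) k) (i₀ : Fin m) (w : Fin m → ℕ) (d D : ℕ)
    (hdP : MvPolynomial.weightedTotalDegree w P ≤ d)
    (hdH : MvPolynomial.weightedTotalDegree w H ≤ D)
    (hdG : MvPolynomial.weightedTotalDegree w G + φ.natDegree * w i₀ ≤ D)
    (hdG1 : MvPolynomial.weightedTotalDegree w G + 1 ≤ D) (hsum : d + D ≤ ∑ i, w i)
    (ξ : Fin m → K) (hP : MvPolynomial.aeval ξ P = 0)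
    (h0 : MvPolynomial.aeval ξ G * aeval (ξ i₀) φ = MvPolynomial.aeval ξ H) :
    ∃ (𝒳 : Fin m → K[X]) (c : K), (∀ i, (𝒳 i).eval 0 = ξ i) ∧ MvPolynomial.aeval 𝒳 P = 0 ∧
      MvPolynomial.aeval 𝒳 G * (aeval (𝒳 i₀) φ + C c * X) = MvPolynomial.aeval 𝒳 H ∧
      (c ≠ 0 ∨ ∃ i, (𝒳 i).natDegree ≠ 0) := by
  classical
  let ι := (Σ i : Fin m, Fin (w i)) ⊕ Unit
  let R := MvPolynomial ι K
  let 𝒴 : Fin m → R[X] := fun i => ser (MvPolynomial.C (ξ i))
    (fun j => MvPolynomial.X (Sum.inl ⟨i, j⟩))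
  let r : R[X] := C (MvPolynomial.X (Sum.inr ())) * X
  have hcard : Fintype.card ι = (∑ i, w i) + 1 := by
    simp [ι, Fintype.card_sigma]
  have halg : ∀ a : k, algebraMap k R a = MvPolynomial.C (algebraMap k K a) := fun a => rfl
  have hRaev : ∀ P : MvPolynomial (Fin m) k,
      MvPolynomial.aeval (fun i => (MvPolynomial.C (ξ i) : R)) P =
        MvPolynomial.C (MvPolynomial.aeval ξ P) := fun P =>
    MvPolynomial.aeval_algebraMap_apply (R := k) (A := K) R ξ P
  have hKaev : ∀ P : MvPolynomial (Fin m) k, MvPolynomial.aeval (fun i => (C (ξ i) : K[X])) P =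
      C (MvPolynomial.aeval ξ P) := fun P =>
    MvPolynomial.aeval_algebraMap_apply (R := k) (A := K) K[X] ξ P
  have hRφ : aeval (MvPolynomial.C (ξ i₀) : R) φ = MvPolynomial.C (aeval (ξ i₀) φ) :=
    Polynomial.aeval_algebraMap_apply (R := k) (A := K) R (ξ i₀) φ
  have hKφ : aeval (C (ξ i₀) : K[X]) φ = C (aeval (ξ i₀) φ) :=
    Polynomial.aeval_algebraMap_apply (R := k) (A := K) K[X] (ξ i₀) φ
  obtain ⟨y, hy, hy'⟩ := exists_map_eq_zero (K := K) (ι := ι)
    (MvPolynomial.aeval 𝒴 P + X ^ d *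
      (MvPolynomial.aeval 𝒴 G * (aeval (𝒴 i₀) φ + r) - MvPolynomial.aeval 𝒴 H))
    (by
      rw [hcard]
      have h0' : (MvPolynomial.aeval 𝒴 P).natDegree ≤ MvPolynomial.weightedTotalDegree w P :=
        natDegree_aeval_le P w 𝒴 (fun i => ser_natDegree _ _)
      have h1 : (MvPolynomial.aeval 𝒴 G).natDegree ≤ MvPolynomial.weightedTotalDegree w G :=
        natDegree_aeval_le G w 𝒴 (fun i => ser_natDegree _ _)
      have h2 : (MvPolynomial.aeval 𝒴 H).natDegree ≤ MvPolynomial.weightedTotalDegree w H :=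
        natDegree_aeval_le H w 𝒴 (fun i => ser_natDegree _ _)
      have h3 : (aeval (𝒴 i₀) φ).natDegree ≤ φ.natDegree * w i₀ :=
        (natDegree_aeval_poly φ (𝒴 i₀)).trans (Nat.mul_le_mul_left _ (ser_natDegree _ _))
      have h4 : r.natDegree ≤ 1 := (natDegree_C_mul_le _ _).trans natDegree_X_le
      have h5 := natDegree_add_le (aeval (𝒴 i₀) φ) r
      have h6 := natDegree_mul_le (p := MvPolynomial.aeval 𝒴 G) (q := aeval (𝒴 i₀) φ + r)
      have h7 := natDegree_sub_le (MvPolynomial.aeval 𝒴 G * (aeval (𝒴 i₀) φ + r))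
        (MvPolynomial.aeval 𝒴 H)
      have h8 := natDegree_mul_le (p := (X ^ d : R[X]))
        (q := MvPolynomial.aeval 𝒴 G * (aeval (𝒴 i₀) φ + r) - MvPolynomial.aeval 𝒴 H)
      have h9 : (X ^ d : R[X]).natDegree ≤ d := natDegree_X_pow_le d
      have h10 := natDegree_add_le (MvPolynomial.aeval 𝒴 P) (X ^ d *
        (MvPolynomial.aeval 𝒴 G * (aeval (𝒴 i₀) φ + r) - MvPolynomial.aeval 𝒴 H))
      omega)
    (by
      rw [coeff_zero_eq_eval_zero, eval_add, eval_mul, eval_sub, eval_mul, eval_add, eval_aeval_mv,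
        eval_aeval_mv, eval_aeval_mv, eval_aeval_poly]
      simp only [𝒴, r, ser_eval, eval_mul, eval_C, eval_X, mul_zero, add_zero]
      rw [hRaev, hRaev, hRaev, hRφ, ← map_mul, h0, sub_self, mul_zero, hP, map_zero, add_zero])
    (by
      have hcc : ∀ a : k, (MvPolynomial.constantCoeff : MvPolynomial ι K →+* K)
          (algebraMap k R a) = algebraMap k K a := fun a => by
        have h : algebraMap k (MvPolynomial ι K) a = MvPolynomial.C (algebraMap k K a) := rfl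
        rw [h, MvPolynomial.constantCoeff_C]
      rw [Polynomial.map_add, Polynomial.map_mul, Polynomial.map_sub, Polynomial.map_mul,
        Polynomial.map_add,
        map_aeval_mv (k := k) (MvPolynomial.constantCoeff : MvPolynomial ι K →+* K) hcc P 𝒴,
        map_aeval_mv (k := k) (MvPolynomial.constantCoeff : MvPolynomial ι K →+* K) hcc G 𝒴,
        map_aeval_mv (k := k) (MvPolynomial.constantCoeff : MvPolynomial ι K →+* K) hcc H 𝒴,
        map_aeval_poly (k := k) (MvPolynomial.constantCoeff : MvPolynomial ι K →+* K) hcc φ (𝒴 i₀)]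
      simp only [𝒴, r, ser_map, Polynomial.map_mul, map_C, map_X, MvPolynomial.constantCoeff_C,
        MvPolynomial.constantCoeff_X, ser_zero, C_0, zero_mul, add_zero]
      rw [hKaev, hKaev, hKaev, hKφ, ← C_mul, h0, sub_self, mul_zero, hP, C_0, add_zero])
  have hC : ∀ c : K, (MvPolynomial.aeval y : MvPolynomial ι K →ₐ[K] K).toRingHom
      (MvPolynomial.C c) = c := fun c => (MvPolynomial.aeval_C y c).trans rfl
  have hX : ∀ i, (MvPolynomial.aeval y : MvPolynomial ι K →ₐ[K] K).toRingHom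
      (MvPolynomial.X i) = y i := fun i => MvPolynomial.aeval_X y i
  have hyc : ∀ a : k, (MvPolynomial.aeval y : MvPolynomial ι K →ₐ[K] K).toRingHom
      (algebraMap k R a) = algebraMap k K a := fun a => by
    rw [halg]
    exact hC _
  rw [Polynomial.map_add, Polynomial.map_mul, Polynomial.map_sub, Polynomial.map_mul,
    Polynomial.map_add, Polynomial.map_pow, map_X,
    map_aeval_mv (k := k) (MvPolynomial.aeval y : MvPolynomial ι K →ₐ[K] K).toRingHom hyc P 𝒴,
    map_aeval_mv (k := k) (MvPolynomial.aeval y : MvPolynomial ι K →ₐ[K] K).toRingHom hyc G 𝒴,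
    map_aeval_mv (k := k) (MvPolynomial.aeval y : MvPolynomial ι K →ₐ[K] K).toRingHom hyc H 𝒴,
    map_aeval_poly (k := k) (MvPolynomial.aeval y : MvPolynomial ι K →ₐ[K] K).toRingHom hyc φ
      (𝒴 i₀)] at hy'
  simp only [𝒴, r, ser_map, Polynomial.map_mul, map_C, map_X, hC, hX] at hy'
  obtain ⟨𝒳, h𝒳⟩ : ∃ 𝒳 : Fin m → K[X], 𝒳 = fun i => ser (ξ i) (fun j => y (Sum.inl ⟨i, j⟩)) :=
    ⟨_, rfl⟩
  have h𝒳i : ∀ i, ser (ξ i) (fun j => y (Sum.inl ⟨i, j⟩)) = 𝒳 i := fun i => by rw [h𝒳]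
  have h𝒳e : ∀ i, (𝒳 i).eval 0 = ξ i := fun i => by
    rw [h𝒳]
    exact ser_eval _ _
  simp only [h𝒳i] at hy'
  obtain ⟨e1, e2⟩ := split_eq_zero d _ _ ((natDegree_aeval_le P w 𝒳 (fun i => by
      rw [h𝒳]
      exact ser_natDegree _ _)).trans hdP) (by
    rw [coeff_zero_eq_eval_zero, eval_sub, eval_mul, eval_add, eval_aeval_mv, eval_aeval_mv,
      eval_aeval_poly]
    simp only [h𝒳e, eval_mul, eval_C, eval_X, mul_zero, add_zero]
    rw [h0, sub_self]) hy'
  refine ⟨𝒳, y (Sum.inr ()), h𝒳e, e1, sub_eq_zero.1 e2, ?_⟩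
  by_contra hcon
  push Not at hcon
  apply hy
  ext i
  rcases i with ⟨i, j⟩ | i
  · exact ser_natDegree_eq_zero (ξ i) (fun j => y (Sum.inl ⟨i, j⟩)) (by
      rw [h𝒳i]
      exact hcon.2 i) j
  · exact hcon.1

end Arc

end Pool.Agent.ADT
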