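import Pool.Agent.ADT.A1
import Pool.Agent.ADT.A2

/-!
# The varieties `P = 0`, `G φ(w) = H` of low weighted degree are uniruled
-/

set_option autoImplicit false

namespace Pool.Agent.ADT

open Polynomial Pool.Agent.UQ Pool.Agent.WLD

universe u

/-- **The varieties `P = 0`, `G φ(w) = H` of low weighted degree are uniruled.** -/
theorem uniruled_phi2 {k L : Type u} [Field k] [Field L] [Algebra k L] {m : ℕ} (φ : k[X])
    (hadd : AddPoly φ) (hdeg : 1 < φ.natDegree) (ξ : Fin m → L)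
    (hgen : IntermediateField.adjoin k (Set.range ξ) = ⊤)
    (hfin : Algebra.trdeg k L < Cardinal.aleph0)
    (htr : (m : Cardinal) ≤ Algebra.trdeg k L + 2) (i₀ : Fin m) (P : MvPolynomial (Fin m) k)
    (hP0 : P ≠ 0) (hPv : i₀ ∉ P.vars) (hP : MvPolynomial.aeval ξ P = 0)
    (H G : MvPolynomial (Fin m) k)
    (hH : i₀ ∉ H.vars) (hG : i₀ ∉ G.vars) (hG0 : MvPolynomial.aeval ξ G ≠ 0)
    (h0 : MvPolynomial.aeval ξ G * aeval (ξ i₀) φ = MvPolynomial.aeval ξ H) (w : Fin m → ℕ)
    (d D : ℕ) (hdP : MvPolynomial.weightedTotalDegree w P ≤ d)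
    (hdH : MvPolynomial.weightedTotalDegree w H ≤ D)
    (hdG : MvPolynomial.weightedTotalDegree w G + φ.natDegree * w i₀ ≤ D)
    (hdG1 : MvPolynomial.weightedTotalDegree w G + 1 ≤ D) (hsum : d + D ≤ ∑ i, w i) :
    Uniruled k L := by
  classical
  let K := AlgebraicClosure L
  let j : L →ₐ[k] K := IsScalarTower.toAlgHom k L K
  obtain ⟨𝒳, c, h1, hX, h2, h3⟩ := arc_phi2 (K := K) φ P H G i₀ w d D hdP hdH hdG hdG1 hsum
    (fun i => j (ξ i)) (by rw [← MvPolynomial.comp_aeval_apply, hP, map_zero]) (by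
    rw [← MvPolynomial.comp_aeval_apply, ← MvPolynomial.comp_aeval_apply,
      Polynomial.aeval_algHom_apply, ← map_mul, h0])
  by_cases hc : c = 0
  · subst hc
    obtain ⟨i, hi⟩ := h3.resolve_left (fun h => h rfl)
    refine uniruled_of_arc2 φ hdeg ξ hgen hfin htr i₀ P hP0 hPv hP H G hH hG hG0 h0 𝒳 h1 hX ?_ i hi
    rw [← h2, C_0, zero_mul, add_zero]
  · -- the substitution
    let f : K[X] := φ.map (algebraMap k K)
    let s : K[X] := C c⁻¹ * f
    have hfX : aeval (X : K[X]) φ = f := rfl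
    have hf0 : f.eval 0 = 0 := by
      have h4 : f.eval 0 = aeval (0 : K) φ := by
        rw [← hfX, eval_aeval_poly, eval_X]
      rw [h4, addPoly_zero hadd]
    have hs0 : s.eval 0 = 0 := by simp [s, hf0]
    have hcs : C c * s = f := by
      simp only [s]
      rw [← mul_assoc, ← C_mul, mul_inv_cancel₀ hc, C_1, one_mul]
    let σ : K[X] →ₐ[K] K[X] := aeval s
    let σk : K[X] →ₐ[k] K[X] := σ.restrictScalars k
    have hσ : ∀ p, σk p = p.comp s := fun p => rfl
    have he : ∀ p : K[X], (σk p).eval 0 = p.eval 0 := by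
      intro p
      rw [hσ, eval_comp, hs0]
    let 𝒵 : Fin m → K[X] := fun i => if i = i₀ then σk (𝒳 i) + X else σk (𝒳 i)
    have h𝒵₀ : 𝒵 i₀ = σk (𝒳 i₀) + X := by simp only [𝒵, if_true]
    have hvz : ∀ P : MvPolynomial (Fin m) k, i₀ ∉ P.vars →
        MvPolynomial.aeval 𝒵 P = σk (MvPolynomial.aeval 𝒳 P) := by
      intro P hP
      rw [aeval_congr_vars P i₀ hP 𝒵 (fun i => σk (𝒳 i)) (fun i hi => by simp [𝒵, hi])]
      exact (MvPolynomial.comp_aeval_apply 𝒳 σk P).symm
    refine uniruled_of_arc2 φ hdeg ξ hgen hfin htr i₀ P hP0 hPv hP H G hH hG hG0 h0 𝒵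
      (fun i => ?_) ?_ ?_ i₀ ?_
    · by_cases hi : i = i₀
      · subst hi
        rw [h𝒵₀, eval_add, eval_X, add_zero, he]
        exact h1 i
      · have h4 : 𝒵 i = σk (𝒳 i) := by simp only [𝒵, if_neg hi]
        rw [h4, he]
        exact h1 i
    · rw [hvz P hPv, hX, map_zero]
    · have h4 := congrArg σk h2
      rw [map_mul, map_add, ← hvz G hG, ← hvz H hH, ← Polynomial.aeval_algHom_apply] at h4
      have h5 : σk (C c * X) = aeval (X : K[X]) φ := by
        rw [hσ, mul_comp, C_comp, X_comp, hcs, hfX]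
      rw [h5, ← add_poly hadd, ← h𝒵₀] at h4
      exact h4
    · intro h4
      rw [h𝒵₀] at h4
      have h5 : σk (𝒳 i₀) = C ((σk (𝒳 i₀) + X).coeff 0) - X := by
        rw [← eq_C_of_natDegree_eq_zero h4]
        ring
      have h6 : (σk (𝒳 i₀)).natDegree = 1 := by
        rw [h5]
        have h7 : (C ((σk (𝒳 i₀) + X).coeff 0) - X : K[X]) =
            -(X - C ((σk (𝒳 i₀) + X).coeff 0)) := by ring
        rw [h7, natDegree_neg, natDegree_X_sub_C]
      rw [hσ, natDegree_comp] at h6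
      have h7 : s.natDegree = φ.natDegree := by
        simp only [s, f]
        rw [natDegree_C_mul (inv_ne_zero hc), natDegree_map]
      rw [h7] at h6
      have h8 := Nat.eq_one_of_mul_eq_one_left h6
      omega

end Pool.Agent.ADT
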