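import Pool.Agent.ADT.T1
import Pool.Agent.T1B.Dominated
import Pool.Agent.WLD.EBW

/-!
# The generic point of the curve
-/

set_option autoImplicit false

namespace Pool.Agent.ADT

open Polynomial Pool.Agent.WLD Cardinal

universe u

theorem exists_M (Kb : Type u) [Field Kb] :
    ∃ (M : Type u) (_ : Field M) (_ : Algebra Kb M) (x : M), IsAlgClosed M ∧
      Transcendental Kb x ∧ ∀ b : M, IsAlgebraic (IntermediateField.adjoin Kb {x}) b := by
  let M := AlgebraicClosure (RatFunc Kb)
  have htow : IsScalarTower Kb (RatFunc Kb) M := inferInstance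
  obtain ⟨x, hx⟩ : ∃ x : M, x = algebraMap (RatFunc Kb) M RatFunc.X := ⟨_, rfl⟩
  refine ⟨M, inferInstance, inferInstance, x, inferInstance, ?_, fun b => ?_⟩
  · rw [hx]
    exact (transcendental_algebraMap_iff (algebraMap (RatFunc Kb) M).injective).2
      RatFunc.transcendental_X
  · refine algTrans (K := RatFunc Kb) _ (fun f => ?_) b (Algebra.IsAlgebraic.isAlgebraic b)
    have hxA : x ∈ IntermediateField.adjoin Kb {x} := IntermediateField.mem_adjoin_simple_self _ _
    have hpol : ∀ q : Kb[X], algebraMap (RatFunc Kb) M (algebraMap Kb[X] (RatFunc Kb) q) ∈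
        IntermediateField.adjoin Kb {x} := by
      intro q
      induction q using Polynomial.induction_on' with
      | add p q hp hq => rw [map_add, map_add]; exact add_mem hp hq
      | monomial n c =>
        rw [← C_mul_X_pow_eq_monomial, map_mul, map_mul, map_pow, map_pow, RatFunc.algebraMap_C,
          RatFunc.algebraMap_X, ← hx]
        refine mul_mem ?_ (pow_mem hxA n)
        exact (IntermediateField.adjoin Kb {x}).algebraMap_mem c
    have hm : algebraMap (RatFunc Kb) M f ∈ IntermediateField.adjoin Kb {x} := by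
      obtain ⟨p, q, hq, rfl⟩ := IsFractionRing.div_surjective (A := Kb[X]) f
      rw [map_div₀]
      exact div_mem (hpol p) (hpol q)
    exact isAlgebraic_algebraMap (⟨_, hm⟩ : IntermediateField.adjoin Kb {x})

/-- transcendence degree one -/
theorem trdeg_one {k L : Type u} [Field k] [Field L] [Algebra k L] (x : L)
    (hx : Transcendental k x) (h : ∀ b : L, IsAlgebraic (IntermediateField.adjoin k {x}) b) :
    Algebra.trdeg k L = 1 := by
  apply le_antisymm
  · have h0 : Algebra.IsAlgebraic (IntermediateField.adjoin k {x}) L := ⟨h⟩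
    have h1 := _root_.trdeg_add_eq k (IntermediateField.adjoin k {x}) (A := L)
    rw [_root_.trdeg_eq_zero (R := IntermediateField.adjoin k {x}) (A := L), add_zero] at h1
    rw [← h1]
    have h2 := T1B.trdeg_adjoin_le_mk (k := k) ({x} : Set L)
    rwa [Cardinal.mk_singleton] at h2
  · have h1 : Algebra.Transcendental k L := ⟨⟨x, hx⟩⟩
    exact Cardinal.one_le_iff_pos.2 (_root_.trdeg_pos k L)

theorem exists_y {k M : Type u} [Field k] [Field M] [Algebra k M] [IsAlgClosed M]
    (W : WeierstrassCurve k[X]) (x s : M) :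
    ∃ y : M, MvPolynomial.aeval ![x, y, s] (wpoly W) = 0 := by
  obtain ⟨b, hb⟩ : ∃ b, b = aeval s W.a₁ * x + aeval s W.a₃ := ⟨_, rfl⟩
  obtain ⟨c, hc⟩ : ∃ c, c = x ^ 3 + aeval s W.a₂ * x ^ 2 + aeval s W.a₄ * x + aeval s W.a₆ :=
    ⟨_, rfl⟩
  have hd : (X ^ 2 + C b * X - C c : M[X]).degree ≠ 0 := by
    have : (X ^ 2 + C b * X - C c : M[X]).degree = 2 := by compute_degree!
    rw [this]
    decide
  obtain ⟨y, hy⟩ := IsAlgClosed.exists_root _ hd
  refine ⟨y, ?_⟩
  rw [aeval_wpoly]
  simp only [Matrix.cons_val_zero, Matrix.cons_val_one, Matrix.cons_val]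
  have h1 : y ^ 2 + b * y - c = 0 := by
    simpa [IsRoot] using hy
  rw [hb, hc] at h1
  linear_combination h1

theorem setup {k K Kb : Type u} [Field k] [Field K] [Field Kb] [Algebra k K] [Algebra k Kb]
    [Algebra K Kb] [IsScalarTower k K Kb] [Algebra.IsAlgebraic K Kb] (s : K)
    (hs : Transcendental k s) (S : Finset Kb)
    (hS : ∀ z ∈ S, ∃ φ F : k[X], φ.natDegree ≠ 0 ∧
      aeval z φ = aeval (algebraMap K Kb s) F)
    (hK : ∀ a : K, algebraMap K Kb a ∈
      IntermediateField.adjoin k (insert (algebraMap K Kb s) (S : Set Kb)))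
    (W : WeierstrassCurve k[X]) :
    ∃ (M : Type u) (_ : Field M) (_ : Algebra k M) (_ : Algebra K M) (_ : Algebra Kb M)
      (x y : M), IsScalarTower k K M ∧ IsScalarTower k Kb M ∧ IsScalarTower K Kb M ∧
      IsAlgClosed M ∧ Algebra.trdeg k M = 2 ∧ Transcendental K x ∧
      MvPolynomial.aeval ![x, y, algebraMap K M s] (wpoly W) = 0 ∧
      ∀ b : M, IsAlgebraic (IntermediateField.adjoin k
        (Set.range ![x, y, algebraMap K M s])) b := by
  obtain ⟨M, _, _, x, hM, hx, hal⟩ := exists_M Kb
  let algK : Algebra K M := ((algebraMap Kb M).comp (algebraMap K Kb)).toAlgebra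
  let algk : Algebra k M := ((algebraMap Kb M).comp (algebraMap k Kb)).toAlgebra
  have tow1 : IsScalarTower K Kb M := IsScalarTower.of_algebraMap_eq fun _ => rfl
  have tow2 : IsScalarTower k Kb M := IsScalarTower.of_algebraMap_eq fun _ => rfl
  have tow3 : IsScalarTower k K M := IsScalarTower.of_algebraMap_eq fun a => by
    rw [IsScalarTower.algebraMap_apply K Kb M, ← IsScalarTower.algebraMap_apply k K Kb,
      ← IsScalarTower.algebraMap_apply k Kb M]
  obtain ⟨y, hy⟩ := exists_y W x (algebraMap K M s)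
  have hxK : Transcendental K x := fun h => hx (h.tower_top Kb)
  obtain ⟨s', hs'⟩ : ∃ s', s' = algebraMap K Kb s := ⟨_, rfl⟩
  have hsM : algebraMap Kb M s' = algebraMap K M s := by
    rw [hs', ← IsScalarTower.algebraMap_apply K Kb M]
  -- `Kb` is algebraic over `k(s)`
  have hKb : ∀ b : Kb, IsAlgebraic (IntermediateField.adjoin k {s'}) b := by
    intro b
    refine algTrans (K := K) _ (fun a => ?_) b (Algebra.IsAlgebraic.isAlgebraic b)
    rw [hs']
    exact alg_K s S hS hK a
  have hsKb : Transcendental k s' := by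
    rw [hs']
    exact (transcendental_algebraMap_iff (algebraMap K Kb).injective).2 hs
  have htd : Algebra.trdeg k M = 2 := by
    rw [← _root_.trdeg_add_eq k Kb (A := M), trdeg_one s' hsKb hKb, trdeg_one x hx hal]
    norm_num
  refine ⟨M, inferInstance, algk, algK, inferInstance, x, y, tow3, tow2, tow1, hM, htd, hxK, hy,
    fun b => ?_⟩
  obtain ⟨A, hA⟩ : ∃ A, A = IntermediateField.adjoin k (Set.range ![x, y, algebraMap K M s]) :=
    ⟨_, rfl⟩
  rw [← hA]
  have hxA : x ∈ A := by
    rw [hA]
    exact IntermediateField.subset_adjoin _ _ ⟨0, rfl⟩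
  have hsA : algebraMap K M s ∈ A := by
    rw [hA]
    exact IntermediateField.subset_adjoin _ _ ⟨2, rfl⟩
  -- `Kb`
  have h1 : ∀ a : Kb, IsAlgebraic A (algebraMap Kb M a) := by
    intro a
    let ι : Kb →ₐ[k] M := IsScalarTower.toAlgHom k Kb M
    have h2 : ∀ c : IntermediateField.adjoin k {s'}, algebraMap Kb M c ∈ A := by
      intro c
      have h3 : (IntermediateField.adjoin k {s'}).map ι ≤ A := by
        rw [IntermediateField.adjoin_map, Set.image_singleton, IntermediateField.adjoin_le_iff,
          Set.singleton_subset_iff]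
        show algebraMap Kb M s' ∈ A
        rw [hsM]
        exact hsA
      exact h3 ⟨c, c.2, rfl⟩
    obtain ⟨q, hq0, hq⟩ := hKb a
    let ψ : IntermediateField.adjoin k {s'} →+* A :=
      ((algebraMap Kb M).comp (algebraMap (IntermediateField.adjoin k {s'}) Kb)).codRestrict A h2
    refine ⟨q.map ψ, (Polynomial.map_ne_zero_iff (RingHom.injective _)).2 hq0, ?_⟩
    rw [aeval_def, eval₂_map]
    have h4 : (algebraMap A M).comp ψ =
        (algebraMap Kb M).comp (algebraMap (IntermediateField.adjoin k {s'}) Kb) :=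
      RingHom.ext fun _ => rfl
    rw [h4, ← hom_eval₂]
    rw [aeval_def] at hq
    rw [hq, map_zero]
  -- `Kb(x)`
  refine algTrans (K := IntermediateField.adjoin Kb {x}) A (fun a => ?_) b (hal b)
  have h2 : ∀ a ∈ IntermediateField.adjoin Kb {x}, a ∈ algebraicClosure A M := by
    intro a ha
    induction ha using IntermediateField.adjoin_induction with
    | mem a ha =>
      rw [Set.mem_singleton_iff.1 ha]
      exact (algebraicClosure A M).algebraMap_mem (⟨x, hxA⟩ : A)
    | algebraMap a => exact mem_algebraicClosure_iff.2 (h1 a)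
    | add x y _ _ hx hy => exact add_mem hx hy
    | inv x _ hx => exact inv_mem hx
    | mul x y _ _ hx hy => exact mul_mem hx hy
  exact mem_algebraicClosure_iff.1 (h2 a a.2)

end Pool.Agent.ADT
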