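import Pool.Agent.ADT.T2
import Pool.Agent.ADT.C2
import Pool.Agent.EFM.Sha
import Pool.Agent.NOC.Emb
import Pool.Agent.TIF.Use
import Pool.Agent.TIF.Goal

/-!
# Elliptic curves over the fields in towers of Artin-Schreier extensions
-/

set_option autoImplicit false


namespace Pool.Agent.ADT

open Polynomial Pool.Agent.WLD Pool.Agent.UQ WeierstrassCurve WeierstrassCurve.Affine
  Pool.Agent.EFF

open scoped Classical

/-- the theorem of Tate -/
theorem t1_of_emt {k M : Type} [Field k] [Finite k] [Field M] [Algebra k M] [IsAlgClosed M]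
    (K : IntermediateField k M) (hK : ∀ x : M, IsAlgebraic K x) (h : Emt K) (ℓ : ℕ)
    (hℓ : ℓ.Prime) (hk : (ℓ : k) ≠ 0) : T1B.T1 k K ℓ := by
  obtain ⟨n, L, h1, h2⟩ := h
  refine TIF.t1_of_embeds' hK L (fun j => ⟨?_, (h1 j).2⟩)
    (NOC.embeds_of_hom _ _ _ (h2 ℓ hℓ hk))
  obtain ⟨K₁, K₂, a1, a2, a3, a4, h5⟩ := (h1 j).1
  rw [h5]
  exact TIF.goal k M K₁ K₂ a1 a2 a3 a4 ℓ hℓ hk

/-- the curve over `K` -/
noncomputable def Ws {k K : Type} [Field k] [Field K] [Algebra k K] (W : WeierstrassCurve k[X])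
    (s : K) : WeierstrassCurve K :=
  W.map (aeval s : k[X] →ₐ[k] K).toRingHom

theorem Ws_elliptic {k K : Type} [Field k] [Field K] [Algebra k K] (W : WeierstrassCurve k[X])
    (hΔ : W.Δ ≠ 0) (s : K) (hs : Transcendental k s) : (Ws W s).IsElliptic := by
  rw [WeierstrassCurve.isElliptic_iff, isUnit_iff_ne_zero]
  unfold Ws
  rw [WeierstrassCurve.map_Δ]
  intro h
  exact hΔ (transcendental_iff_injective.1 hs (h.trans (map_zero _).symm))

theorem Ws_equation {k K M : Type} [Field k] [Field K] [Field M] [Algebra k K] [Algebra k M]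
    [Algebra K M] [IsScalarTower k K M] (W : WeierstrassCurve k[X]) (s : K) (x y : M)
    (h : MvPolynomial.aeval ![x, y, algebraMap K M s] (wpoly W) = 0) :
    ((Ws W s).baseChange M).toAffine.Equation x y := by
  rw [equation_iff]
  rw [aeval_wpoly] at h
  have h1 : ∀ q : k[X], algebraMap K M (aeval s q) = aeval (algebraMap K M s) q := fun q =>
    (Polynomial.aeval_algebraMap_apply M s q).symm
  simp only [Matrix.cons_val_zero, Matrix.cons_val_one, Matrix.cons_val] at h
  simp only [WeierstrassCurve.baseChange, Ws, map_a₁, map_a₂, map_a₃, map_a₄, map_a₆]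
  change y ^ 2 + algebraMap K M (aeval s W.a₁) * x * y + algebraMap K M (aeval s W.a₃) * y =
    x ^ 3 + algebraMap K M (aeval s W.a₂) * x ^ 2 + algebraMap K M (aeval s W.a₄) * x +
      algebraMap K M (aeval s W.a₆)
  rw [h1, h1, h1, h1, h1]
  linear_combination h

/-- the bridge: the field of functions of the curve and the group of Tate and Shafarevich -/
theorem bridge {k K Kb M : Type} [Field k] [Field K] [Field Kb] [Field M] [Algebra k K]
    [Algebra k Kb] [Algebra K Kb] [IsScalarTower k K Kb] [IsAlgClosed Kb]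
    [Algebra.IsAlgebraic K Kb] [Algebra k M] [Algebra K M] [IsScalarTower k K M] (s : K)
    (hs : Transcendental k s) (hKs : ∀ a : K, IsAlgebraic (IntermediateField.adjoin k {s}) a)
    (W : WeierstrassCurve k[X]) (hΔ : W.Δ ≠ 0) (x y : M) (hx : Transcendental K x)
    (hy : MvPolynomial.aeval ![x, y, algebraMap K M s] (wpoly W) = 0)
    (F : IntermediateField K M) (hF : F = IntermediateField.adjoin K {x, y})
    (ℓ : ℕ) (hℓ : ℓ.Prime) (hℓk : (ℓ : k) ≠ 0) (hT : T1B.T1 k F ℓ)
    (c : ℕ → (Kb ≃ₐ[K] Kb) → Pts (Ws W s) Kb) (hc : ShaSys (Ws W s) k ℓ c) (n : ℕ) :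
    Principal (Ws W s) (T1B.geo k K Kb) (c n) := by
  have hxF : x ∈ F := by
    rw [hF]
    exact IntermediateField.subset_adjoin _ _ (by simp)
  have hyF : y ∈ F := by
    rw [hF]
    exact IntermediateField.subset_adjoin _ _ (by simp)
  have hxy : ((Ws W s).baseChange F).toAffine.Equation (⟨x, hxF⟩ : F) ⟨y, hyF⟩ := by
    refine Ws_equation W s _ _ ?_
    have tF : IsScalarTower k F M := IsScalarTower.of_algebraMap_eq fun _ => rfl
    apply (algebraMap F M).injective
    rw [map_zero, ← MvPolynomial.aeval_algebraMap_apply (A := F) (B := M), ← hy]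
    congr 2
    funext i
    fin_cases i <;> rfl
  refine sha_geo (F := F) (Ws W s) (Ws_elliptic W hΔ s hs) ⟨x, hxF⟩ ⟨y, hyF⟩ hxy ?_ ?_ s
    hKs ℓ hℓ hℓk hT c hc n
  · intro h
    exact hx (h.algebraMap (A := M))
  · intro f
    have a1 : (IntermediateField.adjoin K ({⟨x, hxF⟩, ⟨y, hyF⟩} : Set F)).map F.val =
        IntermediateField.adjoin K {x, y} := by
      rw [IntermediateField.adjoin_map, Set.image_pair]
      rfl
    have a2 : (f : M) ∈ (IntermediateField.adjoin K
        ({⟨x, hxF⟩, ⟨y, hyF⟩} : Set F)).map F.val := by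
      rw [a1, ← hF]
      exact f.2
    obtain ⟨g, hg, hgf⟩ := a2
    have a3 : g = f := Subtype.ext hgf
    rw [← a3]
    exact hg

theorem sha_tower {k K Kb : Type} [Field k] [Finite k] [Field K] [Field Kb] [Algebra k K]
    [Algebra k Kb] [Algebra K Kb] [IsScalarTower k K Kb] [IsAlgClosed Kb]
    [Algebra.IsAlgebraic K Kb] (p : ℕ) [Fact p.Prime] [CharP k p] (s : K)
    (hs : Transcendental k s) (W : WeierstrassCurve k[X]) (hΔ : W.Δ ≠ 0)
    (N σ m e α γ D : ℕ) (he : 2 ≤ e) (hek : (e : k) ≠ 0) (hW : WDeg W N σ) (h1 : m * σ ≤ D)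
    (h2 : e * α ≤ D) (h3 : max 1 (p * γ) ≤ D) (h4 : N + D ≤ σ + α + γ) (S : Finset Kb)
    (hS : ∀ z ∈ S, ∃ φ F : k[X], AddPoly φ ∧ derivative φ ≠ 0 ∧ F.natDegree ≤ m ∧
      aeval z φ = aeval (algebraMap K Kb s) F)
    (hK : ∀ a : K, algebraMap K Kb a ∈
      IntermediateField.adjoin k (insert (algebraMap K Kb s) (S : Set Kb)))
    (ℓ : ℕ) (hℓ : ℓ.Prime) (hℓk : (ℓ : k) ≠ 0)
    (c : ℕ → (Kb ≃ₐ[K] Kb) → Pts (Ws W s) Kb) (hc : ShaSys (Ws W s) k ℓ c) (n : ℕ) :
    Principal (Ws W s) (T1B.geo k K Kb) (c n) := by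
  have hS' : ∀ z ∈ S, ∃ φ F : k[X], φ.natDegree ≠ 0 ∧
      aeval z φ = aeval (algebraMap K Kb s) F := fun z hz => by
    obtain ⟨φ, F, -, a2, -, a4⟩ := hS z hz
    refine ⟨φ, F, fun h => a2 ?_, a4⟩
    rw [eq_C_of_natDegree_eq_zero h, derivative_C]
  obtain ⟨M, _, _, _, _, x, y, t1, t2, t3, hM, htd, hx, hy, hal⟩ := setup s hs S hS' hK W
  obtain ⟨F, hF⟩ : ∃ F : IntermediateField K M, F = IntermediateField.adjoin K {x, y} := ⟨_, rfl⟩
  have hxF : x ∈ F := by
    rw [hF]
    exact IntermediateField.subset_adjoin _ _ (by simp)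
  have hyF : y ∈ F := by
    rw [hF]
    exact IntermediateField.subset_adjoin _ _ (by simp)
  have hsub : IntermediateField.adjoin k (Set.range ![x, y, algebraMap K M s]) ≤
      F.restrictScalars k := by
    rw [IntermediateField.adjoin_le_iff]
    rintro _ ⟨i, rfl⟩
    fin_cases i
    · exact hxF
    · exact hyF
    · exact F.algebraMap_mem s
  have hFal : ∀ b : M, IsAlgebraic (F.restrictScalars k) b := fun b => by
    refine algTrans (K := IntermediateField.adjoin k (Set.range ![x, y, algebraMap K M s])) _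
      (fun a => ?_) b (hal b)
    exact isAlgebraic_algebraMap (⟨a, hsub a.2⟩ : F.restrictScalars k)
  -- the field is contained in the tower
  let ι : Kb →ₐ[k] M := IsScalarTower.toAlgHom k Kb M
  have hle : F.restrictScalars k ≤ IntermediateField.adjoin k
      (Set.range ![x, y, algebraMap K M s] ∪ ((S.image ι : Finset M) : Set M)) := by
    have hKM : ∀ a : K, algebraMap K M a ∈ IntermediateField.adjoin k
        (Set.range ![x, y, algebraMap K M s] ∪ ((S.image ι : Finset M) : Set M)) := by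
      intro a
      have a1 : (IntermediateField.adjoin k (insert (algebraMap K Kb s) (S : Set Kb))).map ι ≤
          IntermediateField.adjoin k
            (Set.range ![x, y, algebraMap K M s] ∪ ((S.image ι : Finset M) : Set M)) := by
        rw [IntermediateField.adjoin_map]
        apply IntermediateField.adjoin.mono
        rintro _ ⟨b, hb, rfl⟩
        rcases hb with rfl | hb
        · left
          refine ⟨2, ?_⟩
          show algebraMap K M s = algebraMap Kb M (algebraMap K Kb s)
          exact IsScalarTower.algebraMap_apply K Kb M s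
        · right
          rw [Finset.coe_image]
          exact ⟨b, hb, rfl⟩
      refine a1 ⟨algebraMap K Kb a, hK a, ?_⟩
      show algebraMap Kb M (algebraMap K Kb a) = algebraMap K M a
      exact (IsScalarTower.algebraMap_apply K Kb M a).symm
    obtain ⟨B, hB⟩ : ∃ B : IntermediateField k M, B = IntermediateField.adjoin k
      (Set.range ![x, y, algebraMap K M s] ∪ ((S.image ι : Finset M) : Set M)) := ⟨_, rfl⟩
    rw [← hB] at hKM ⊢
    let B' : IntermediateField K M := B.toSubfield.toIntermediateField hKM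
    have hFB : F ≤ B' := by
      rw [hF, IntermediateField.adjoin_le_iff]
      rintro b (rfl | hb)
      · show b ∈ B
        rw [hB]
        exact IntermediateField.subset_adjoin _ _ (Or.inl ⟨0, rfl⟩)
      · show b ∈ B
        rw [Set.mem_singleton_iff.1 hb, hB]
        exact IntermediateField.subset_adjoin _ _ (Or.inl ⟨1, rfl⟩)
    exact fun b hb => hFB hb
  -- the theorem on the towers
  have hq1 : MvPolynomial.aeval ![x, y, algebraMap K M s] (1 : MvPolynomial (Fin 3) k) ≠ 0 := by
    rw [map_one]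
    exact one_ne_zero
  have hemt : Emt (F.restrictScalars k) := by
    refine tower_injG p htd ![x, y, algebraMap K M s] hal (wpoly W) 1 (wpoly_ne_zero W) hy hq1
      ![2 * N, 3 * N, σ] e α γ (6 * N) D he hek (wle_wpoly W N σ hW _ rfl rfl rfl) h2 ?_ ?_
      (S.image ι) ?_ _ hle hFal
    · have := wle_one (k := k) ![2 * N, 3 * N, σ]
      have h0 : MvPolynomial.weightedTotalDegree ![2 * N, 3 * N, σ]
        (1 : MvPolynomial (Fin 3) k) = 0 := Nat.le_zero.1 this
      rw [h0, mul_zero, zero_add]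
      exact h3
    · show 6 * N + D ≤ 2 * N + 3 * N + σ + α + γ
      omega
    · intro z hz
      obtain ⟨z', hz', rfl⟩ := Finset.mem_image.1 hz
      obtain ⟨φ, G, a1, a2, a3, a4⟩ := hS z' hz'
      refine ⟨φ, aeval (MvPolynomial.X 2) G, a1, a2, ?_, ?_⟩
      · refine (wle_aeval_X _ 2 G).trans ((Nat.mul_le_mul_right _ a3).trans h1)
      · rw [map_one, one_pow, mul_one, ← Polynomial.aeval_algHom_apply, MvPolynomial.aeval_X,
          Polynomial.aeval_algHom_apply, a4]
        show algebraMap Kb M (aeval (algebraMap K Kb s) G) = aeval (algebraMap K M s) G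
        rw [← Polynomial.aeval_algebraMap_apply, ← IsScalarTower.algebraMap_apply K Kb M]
  have hT : T1B.T1 k F ℓ := t1_of_emt (F.restrictScalars k) hFal hemt ℓ hℓ hℓk
  exact bridge s hs (alg_K' s S hS' hK) W hΔ x y hx hy F hF ℓ hℓ hℓk hT c hc n

end Pool.Agent.ADT
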