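import Pool.Agent.ADT.T3
import Pool.Agent.EFM.Main
import Pool.Agent.NOC.Aut

/-!
# Elliptic curves over rational function fields
-/

set_option autoImplicit false


namespace Pool.Agent.ADT

open Polynomial Pool.Agent.WLD Pool.Agent.UQ WeierstrassCurve WeierstrassCurve.Affine
  Pool.Agent.EFF

open scoped Classical

theorem crv_eq {k : Type} [Field k] (W : WeierstrassCurve k[X]) (h1 : W.a₁ = 0) (h3 : W.a₃ = 0) :
    crv W.a₂ W.a₄ W.a₆ (X : k[X]) = W := by
  unfold crv
  ext1
  · exact h1.symm
  · exact aeval_X_left_apply _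
  · exact h3.symm
  · exact aeval_X_left_apply _
  · exact aeval_X_left_apply _

theorem crv_eq_Ws {k K : Type} [Field k] [Field K] [Algebra k K] (W : WeierstrassCurve k[X])
    (h1 : W.a₁ = 0) (h3 : W.a₃ = 0) (s : K) : crv W.a₂ W.a₄ W.a₆ s = Ws W s := by
  unfold crv Ws
  ext1
  · show (0 : K) = aeval s W.a₁
    rw [h1, map_zero]
  · rfl
  · show (0 : K) = aeval s W.a₃
    rw [h3, map_zero]
  · rfl
  · rfl

/-- the case `K = k(z)`, `s = z ^ N` or `s = φ(z)`, `φ` additive -/
theorem sha_rat {k K Kb : Type} [Field k] [Finite k] [Field K] [Field Kb] [Algebra k K]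
    [Algebra k Kb] [Algebra K Kb] [IsScalarTower k K Kb] [IsAlgClosed Kb]
    [Algebra.IsAlgebraic K Kb] (hk : (2 : k) ≠ 0) (z s : K)
    (hz : IntermediateField.adjoin k {z} = ⊤) (φ : k[X]) (hφ0 : φ.natDegree ≠ 0)
    (hφ : (∃ N, 0 < N ∧ φ = X ^ N) ∨ (AddPoly φ ∧ φ ≠ 0)) (hs : Transcendental k s)
    (hsz : s = aeval z φ)
    (W : WeierstrassCurve k[X]) (hΔ : W.Δ ≠ 0) (w1 : W.a₁ = 0) (w3 : W.a₃ = 0)
    (hD : Deg W.a₂ W.a₄ W.a₆) (hN : NonIso W.a₂ W.a₄ W.a₆)
    (ℓ : ℕ) (hℓ : ℓ.Prime) (hℓk : (ℓ : k) ≠ 0)
    (c : ℕ → (Kb ≃ₐ[K] Kb) → Pts (Ws W s) Kb) (hc : ShaSys (Ws W s) k ℓ c) (n : ℕ) :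
    Principal (Ws W s) (T1B.geo k K Kb) (c n) := by
  have hzt : Transcendental k z := by
    intro h
    apply hs
    rw [hsz]
    have h2 : aeval z φ ∈ algebraicClosure k K := by
      have h3 : IntermediateField.adjoin k {z} ≤ algebraicClosure k K := by
        rw [IntermediateField.adjoin_le_iff, Set.singleton_subset_iff]
        exact mem_algebraicClosure_iff.2 h
      refine h3 (?_ : aeval z φ ∈ IntermediateField.adjoin k {z})
      rw [hz]
      trivial
    exact mem_algebraicClosure_iff.1 h2
  have hS : ∀ b ∈ ({algebraMap K Kb z} : Finset Kb), ∃ φ F : k[X], φ.natDegree ≠ 0 ∧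
      aeval b φ = aeval (algebraMap K Kb s) F := by
    intro b hb
    rw [Finset.mem_singleton.1 hb]
    refine ⟨φ, X, hφ0, ?_⟩
    rw [aeval_X, hsz]
    exact Polynomial.aeval_algebraMap_apply Kb z φ
  have hK : ∀ a : K, algebraMap K Kb a ∈ IntermediateField.adjoin k
      (insert (algebraMap K Kb s) (({algebraMap K Kb z} : Finset Kb) : Set Kb)) := by
    intro a
    have h1 : a ∈ IntermediateField.adjoin k {z} := by
      rw [hz]
      trivial
    have h2 : (IntermediateField.adjoin k {z}).map (IsScalarTower.toAlgHom k K Kb) ≤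
        IntermediateField.adjoin k
          (insert (algebraMap K Kb s) (({algebraMap K Kb z} : Finset Kb) : Set Kb)) := by
      rw [IntermediateField.adjoin_map, Set.image_singleton]
      apply IntermediateField.adjoin.mono
      intro b hb
      rw [Set.mem_singleton_iff.1 hb]
      right
      rw [Finset.coe_singleton]
      rfl
    exact h2 ⟨a, h1, rfl⟩
  obtain ⟨M, _, _, _, _, x, y, t1, t2, t3, hM, htd, hx, hy, hal⟩ :=
    setup s hs _ hS hK W
  obtain ⟨zM, hzM⟩ : ∃ zM, zM = algebraMap K M z := ⟨_, rfl⟩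
  have hsM : algebraMap K M s = aeval zM φ := by
    rw [hzM, hsz]
    exact (Polynomial.aeval_algebraMap_apply M z φ).symm
  obtain ⟨B, hB⟩ : ∃ B : IntermediateField k M, B = IntermediateField.adjoin k {zM, x, y} :=
    ⟨_, rfl⟩
  have hzB : zM ∈ B := by
    rw [hB]
    exact IntermediateField.subset_adjoin _ _ (by simp)
  have hxB : x ∈ B := by
    rw [hB]
    exact IntermediateField.subset_adjoin _ _ (by simp)
  have hyB : y ∈ B := by
    rw [hB]
    exact IntermediateField.subset_adjoin _ _ (by simp)
  have hKB : ∀ a : K, algebraMap K M a ∈ B := by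
    intro a
    have h1 : a ∈ IntermediateField.adjoin k {z} := by
      rw [hz]
      trivial
    have h2 : (IntermediateField.adjoin k {z}).map (IsScalarTower.toAlgHom k K M) ≤ B := by
      rw [IntermediateField.adjoin_map, Set.image_singleton, IntermediateField.adjoin_le_iff,
        Set.singleton_subset_iff]
      show algebraMap K M z ∈ B
      rw [← hzM]
      exact hzB
    exact h2 ⟨a, h1, rfl⟩
  -- the two fields are equal
  have hFB : (IntermediateField.adjoin K {x, y}).restrictScalars k = B := by
    apply le_antisymm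
    · let B' : IntermediateField K M := B.toSubfield.toIntermediateField hKB
      have h1 : IntermediateField.adjoin K {x, y} ≤ B' := by
        rw [IntermediateField.adjoin_le_iff]
        rintro b (rfl | hb)
        · exact hxB
        · rw [Set.mem_singleton_iff.1 hb]
          exact hyB
      exact fun b hb => h1 hb
    · rw [hB, IntermediateField.adjoin_le_iff]
      rintro b (rfl | rfl | hb)
      · rw [hzM]
        exact (IntermediateField.adjoin K {x, y}).algebraMap_mem z
      · exact IntermediateField.subset_adjoin K _ (by simp)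
      · rw [Set.mem_singleton_iff.1 hb]
        exact IntermediateField.subset_adjoin K _ (by simp)
  have hBal : ∀ b : M, IsAlgebraic B b := fun b => by
    refine algTrans (K := IntermediateField.adjoin k
      (Set.range ![x, y, algebraMap K M s])) _ (fun a => ?_) b (hal b)
    have h1 : IntermediateField.adjoin k (Set.range ![x, y, algebraMap K M s]) ≤ B := by
      rw [IntermediateField.adjoin_le_iff]
      rintro _ ⟨i, rfl⟩
      fin_cases i
      · exact hxB
      · exact hyB
      · exact hKB _
    exact isAlgebraic_algebraMap (⟨a, h1 a.2⟩ : B)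
  have hind : AlgebraicIndependent k ![zM, x] := by
    refine NOC.indep_pair ?_ ?_
    · rw [hzM]
      exact (transcendental_algebraMap_iff (algebraMap K M).injective).2 hzt
    · intro h
      apply hx
      have h1 : ∀ a : IntermediateField.adjoin k {zM},
          IsAlgebraic (⊥ : IntermediateField K M) (a : M) := by
        intro a
        have h2 : IntermediateField.adjoin k {zM} ≤
            (⊥ : IntermediateField K M).restrictScalars k := by
          rw [IntermediateField.adjoin_le_iff, Set.singleton_subset_iff, hzM]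
          exact (⊥ : IntermediateField K M).algebraMap_mem z
        exact isAlgebraic_algebraMap (⟨a, h2 a.2⟩ : (⊥ : IntermediateField K M))
      have h3 := algTrans (K := IntermediateField.adjoin k {zM}) (⊥ : IntermediateField K M)
        h1 x h
      exact h3.restrictScalars K
  have hyc : y ^ 2 = cub W.a₂ W.a₄ W.a₆ x (aeval zM φ) := by
    rw [aeval_wpoly] at hy
    simp only [Matrix.cons_val_zero, Matrix.cons_val_one, Matrix.cons_val, w1, w3, map_zero,
      zero_mul, add_zero] at hy
    rw [hsM] at hy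
    unfold cub
    linear_combination hy
  obtain ⟨m, K₁, K₂, h1, h2⟩ := i_final hk W.a₂ W.a₄ W.a₆ hD hN φ hφ zM x y hind hyc (by
    rw [← hB]
    exact hBal)
  have hT : T1B.T1 k B ℓ := by
    rw [hB]
    refine h2 ℓ hℓ hℓk fun i => ?_
    obtain ⟨b1, b2, b3, b4⟩ := h1 i
    exact TIF.goal k M (K₁ i) (K₂ i) b1 b2 b3 b4 ℓ hℓ hℓk
  rw [← hFB] at hT
  exact bridge s hs (alg_K' s _ hS hK) W hΔ x y hx hy _ rfl ℓ hℓ hℓk hT c hc n

end Pool.Agent.ADT
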