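import Pool.Agent.ADT.T4

/-!
# The numerical condition
-/

set_option autoImplicit false

namespace Pool.Agent.ADT

open Polynomial Pool.Agent.WLD Pool.Agent.UQ WeierstrassCurve Pool.Agent.EFF

open scoped Classical

/-- the numbers: `σ = e p`, `D = m e p`, `α = m p`, `γ = m e`, `N = e p + m e + m p - m e p` -/
theorem num_aux (i d e p m N : ℕ) (he : 0 < e) (hp : 0 < p)
    (hN : N + m * (e * p) = e * p + m * e + m * p)
    (h : (d : ℚ) ≤ i * (1 - m * (1 - 1 / e - 1 / p))) : d * (e * p) ≤ i * N := by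
  have he' : (0 : ℚ) < e := by exact_mod_cast he
  have hp' : (0 : ℚ) < p := by exact_mod_cast hp
  have hN' : (N : ℚ) + m * (e * p) = e * p + m * e + m * p := by exact_mod_cast hN
  have h1 : (1 - m * (1 - 1 / e - 1 / p) : ℚ) * (e * p) = N := by
    field_simp
    linarith
  have h2 : (d : ℚ) * (e * p) ≤ i * N := by
    rw [← h1]
    calc (d : ℚ) * (e * p) ≤ i * (1 - m * (1 - 1 / e - 1 / p)) * (e * p) :=
          mul_le_mul_of_nonneg_right h (by positivity)
      _ = i * ((1 - m * (1 - 1 / e - 1 / p)) * (e * p)) := by ring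
  exact_mod_cast h2

theorem num_nonneg (e p m : ℕ) (he : 0 < e) (hp : 0 < p)
    (h : (0 : ℚ) ≤ 1 - m * (1 - 1 / e - 1 / p)) :
    ∃ N, N + m * (e * p) = e * p + m * e + m * p := by
  have he' : (0 : ℚ) < e := by exact_mod_cast he
  have hp' : (0 : ℚ) < p := by exact_mod_cast hp
  have h1 : (1 - m * (1 - 1 / e - 1 / p) : ℚ) * (e * p) = e * p + m * e + m * p - m * (e * p) := by
    field_simp
    ring
  have h2 : (0 : ℚ) ≤ e * p + m * e + m * p - m * (e * p) := by
    rw [← h1]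
    exact mul_nonneg h (by positivity)
  have h3 : m * (e * p) ≤ e * p + m * e + m * p := by
    have : (m : ℚ) * (e * p) ≤ e * p + m * e + m * p := by linarith
    exact_mod_cast this
  exact ⟨_, Nat.sub_add_cancel h3⟩

/-- the degrees of the coefficients: `deg a_i ≤ i c` -/
def DegLe {k : Type} [Field k] (W : WeierstrassCurve k[X]) (c : ℚ) : Prop :=
  (W.a₁.natDegree : ℚ) ≤ c ∧ (W.a₂.natDegree : ℚ) ≤ 2 * c ∧ (W.a₃.natDegree : ℚ) ≤ 3 * c ∧
    (W.a₄.natDegree : ℚ) ≤ 4 * c ∧ (W.a₆.natDegree : ℚ) ≤ 6 * c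

/-- the theorem on the towers with the condition in closed form -/
theorem sha_towerQ {k K Kb : Type} [Field k] [Finite k] [Field K] [Field Kb] [Algebra k K]
    [Algebra k Kb] [Algebra K Kb] [IsScalarTower k K Kb] [IsAlgClosed Kb]
    [Algebra.IsAlgebraic K Kb] (p : ℕ) [Fact p.Prime] [CharP k p] (s : K)
    (hs : Transcendental k s) (W : WeierstrassCurve k[X]) (hΔ : W.Δ ≠ 0)
    (e m : ℕ) (he : 2 ≤ e) (hep : ¬ p ∣ e) (hm : 0 < m)
    (hW : DegLe W (1 - m * (1 - 1 / e - 1 / p))) (S : Finset Kb)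
    (hS : ∀ z ∈ S, ∃ φ F : k[X], AddPoly φ ∧ derivative φ ≠ 0 ∧ F.natDegree ≤ m ∧
      aeval z φ = aeval (algebraMap K Kb s) F)
    (hK : ∀ a : K, algebraMap K Kb a ∈
      IntermediateField.adjoin k (insert (algebraMap K Kb s) (S : Set Kb)))
    (ℓ : ℕ) (hℓ : ℓ.Prime) (hℓk : (ℓ : k) ≠ 0)
    (c : ℕ → (Kb ≃ₐ[K] Kb) → Pts (Ws W s) Kb) (hc : ShaSys (Ws W s) k ℓ c) (n : ℕ) :
    Principal (Ws W s) (T1B.geo k K Kb) (c n) := by
  have hp : 0 < p := (Fact.out : p.Prime).pos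
  have he0 : 0 < e := by omega
  have hek : (e : k) ≠ 0 := fun h => hep ((CharP.cast_eq_zero_iff k p e).1 h)
  obtain ⟨w1, w2, w3, w4, w6⟩ := hW
  obtain ⟨N, hN⟩ := num_nonneg e p m he0 hp ((Nat.cast_nonneg _).trans w1)
  have hWd : WDeg W N (e * p) := by
    refine ⟨?_, ?_, ?_, ?_, ?_⟩
    · have := num_aux 1 W.a₁.natDegree e p m N he0 hp hN (by rw [Nat.cast_one, one_mul]; exact w1)
      rwa [one_mul] at this
    · exact num_aux 2 _ e p m N he0 hp hN (by exact_mod_cast w2)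
    · exact num_aux 3 _ e p m N he0 hp hN (by exact_mod_cast w3)
    · exact num_aux 4 _ e p m N he0 hp hN (by exact_mod_cast w4)
    · exact num_aux 6 _ e p m N he0 hp hN (by exact_mod_cast w6)
  have hpos : 0 < m * (e * p) := Nat.mul_pos hm (Nat.mul_pos he0 hp)
  refine sha_tower p s hs W hΔ N (e * p) m e (m * p) (m * e) (m * (e * p)) he hek hWd le_rfl
    ?_ ?_ ?_ S hS hK ℓ hℓ hℓk c hc n
  · exact le_of_eq (by ring)
  · refine max_le hpos (le_of_eq (by ring))
  · rw [hN]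
    exact le_of_eq (by ring)

end Pool.Agent.ADT
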