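import Pool.Agent.ADT.T5
import Pool.Agent.EFG.Use
import Pool.Agent.EFG.Main
import Pool.Agent.EFG.F6

/-!
# The 2-primary part of the Tate-Shafarevich group
-/

set_option autoImplicit false

namespace Pool.Agent.ADT

open Polynomial Pool.Agent.WLD Pool.Agent.UQ WeierstrassCurve Pool.Agent.EFF

open scoped Classical

/-- **The 2-primary part is finite.** -/
theorem two_finite_K {k K : Type} [Field k] [Finite k] [Field K] [Algebra k K] [EFG.FF k K]
    (h2 : (2 : k) ≠ 0) (W : WeierstrassCurve k[X]) (h1 : W.a₁ = 0) (h3 : W.a₃ = 0)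
    (hΔ : W.Δ ≠ 0) (hj : ∀ j : k, W.c₄ ^ 3 ≠ C j * W.Δ) (s : K) (hs : Transcendental k s)
    (hgeo : ∀ c : ℕ → (AlgebraicClosure K ≃ₐ[K] AlgebraicClosure K) →
      Pts (Ws W s) (AlgebraicClosure K), ShaSys (Ws W s) k 2 c →
      ∀ n, Principal (Ws W s) (T1B.geo k K (AlgebraicClosure K)) (c n)) :
    ∃ R : Set ((AlgebraicClosure K ≃ₐ[K] AlgebraicClosure K) → Pts (Ws W s) (AlgebraicClosure K)),
      R.Finite ∧
      (∀ r ∈ R, Crossed (Ws W s) r ∧ ∀ V : ValuationSubring (AlgebraicClosure K),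
        (∀ x : k, algebraMap k (AlgebraicClosure K) x ∈ V) → V ≠ ⊤ →
          Principal (Ws W s) (T1B.stab V) r) ∧
      ∀ c : (AlgebraicClosure K ≃ₐ[K] AlgebraicClosure K) → Pts (Ws W s) (AlgebraicClosure K),
        Crossed (Ws W s) c →
        (∀ V : ValuationSubring (AlgebraicClosure K),
          (∀ x : k, algebraMap k (AlgebraicClosure K) x ∈ V) → V ≠ ⊤ →
            Principal (Ws W s) (T1B.stab V) c) →
        (∃ n : ℕ, Principal (Ws W s) ⊤ (fun g => 2 ^ n • c g)) →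
        ∃ r ∈ R, Principal (Ws W s) ⊤ (fun g => c g - r g) := by
  have hinj : Function.Injective (aeval s : k[X] →ₐ[k] K) := transcendental_iff_injective.1 hs
  have e1 : (Ws W s).Δ = aeval s W.Δ := by
    unfold Ws
    rw [WeierstrassCurve.map_Δ]
    rfl
  have e2 : (Ws W s).c₄ = aeval s W.c₄ := by
    unfold Ws
    rw [WeierstrassCurve.map_c₄]
    rfl
  have hΔs : (Ws W s).Δ ≠ 0 := by
    rw [e1]
    exact fun h => hΔ (hinj (by rw [h, map_zero]))
  have hjs : ∀ j : K, IsAlgebraic k j → (Ws W s).c₄ ^ 3 ≠ j * (Ws W s).Δ := by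
    rw [e1, e2]
    exact EFG.j_not_alg W hΔ hj hs
  have h1s : (Ws W s).a₁ = 0 := by
    unfold Ws
    rw [WeierstrassCurve.map_a₁, h1, map_zero]
  have h3s : (Ws W s).a₃ = 0 := by
    unfold Ws
    rw [WeierstrassCurve.map_a₃, h3, map_zero]
  exact EFG.sha_two h2 h1s h3s hΔs fun c hc n =>
    EFG.main h2 (Ws W s) h1s h3s hΔs hjs c hc (hgeo c hc) n

end Pool.Agent.ADT
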